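import Pool.Agent.Helper62.FO.Defs

/-!
# Order of flat outputs: the systems `sys c` are analytic with independent inputs
-/

namespace FlatOrder

theorem sys_analytic (c : ℝ) : AnalyticOnNhd ℝ
    (fun z : (Fin 4 → ℝ) × (Fin 2 → ℝ) => sys c z.1 z.2) Set.univ := by
  intro z _
  have hx : ∀ i, AnalyticAt ℝ (fun z : (Fin 4 → ℝ) × (Fin 2 → ℝ) => z.1 i) z := fun i =>
    analyticAt_pi_iff.1 (analyticAt_fst (𝕜 := ℝ) (E := Fin 4 → ℝ) (F := Fin 2 → ℝ)) i
  have hu : ∀ i, AnalyticAt ℝ (fun z : (Fin 4 → ℝ) × (Fin 2 → ℝ) => z.2 i) z := fun i =>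
    analyticAt_pi_iff.1 (analyticAt_snd (𝕜 := ℝ) (E := Fin 4 → ℝ) (F := Fin 2 → ℝ)) i
  refine analyticAt_pi_iff.2 fun i => ?_
  fin_cases i
  · exact (hx 3).fun_add ((hx 2).fun_mul (hu 0))
  · exact hu 0
  · exact hu 1
  · exact ((hx 3).fun_pow 2).fun_sub ((analyticAt_const.fun_mul (hu 0)).fun_mul (hu 1))

theorem isAnalyticSystem_sys (c : ℝ) : IsAnalyticSystem (sys c) := by
  refine ⟨sys_analytic c, fun x u => ?_⟩
  have h0 : ∀ i, HasFDerivAt (fun u : Fin 2 → ℝ => u i)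
      (ContinuousLinearMap.proj (R := ℝ) (φ := fun _ : Fin 2 => ℝ) i) u := fun i =>
    (ContinuousLinearMap.proj (R := ℝ) (φ := fun _ : Fin 2 => ℝ) i).hasFDerivAt
  have hd : DifferentiableAt ℝ (sys c x) u := by
    have h := sys_analytic c (x, u) trivial
    have h2 : AnalyticAt ℝ (fun u : Fin 2 → ℝ => ((x, u) : (Fin 4 → ℝ) × (Fin 2 → ℝ))) u :=
      analyticAt_const.prod analyticAt_id
    exact (AnalyticAt.fun_comp (g := fun z : (Fin 4 → ℝ) × (Fin 2 → ℝ) => sys c z.1 z.2)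
      (f := fun u : Fin 2 → ℝ => ((x, u) : (Fin 4 → ℝ) × (Fin 2 → ℝ))) h h2).differentiableAt
  have hp : ∀ i, HasFDerivAt (fun u => sys c x u i)
      ((ContinuousLinearMap.proj (R := ℝ) (φ := fun _ : Fin 4 => ℝ) i).comp
        (fderiv ℝ (sys c x) u)) u := fun i =>
    (ContinuousLinearMap.proj (R := ℝ) (φ := fun _ : Fin 4 => ℝ) i).hasFDerivAt.comp u
      hd.hasFDerivAt
  have h1 : ∀ v, fderiv ℝ (sys c x) u v 1 = v 0 := fun v => by
    have := (hp 1).unique (h0 0)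
    exact congrArg (fun L : (Fin 2 → ℝ) →L[ℝ] ℝ => L v) this
  have h2 : ∀ v, fderiv ℝ (sys c x) u v 2 = v 1 := fun v => by
    have := (hp 2).unique (h0 1)
    exact congrArg (fun L : (Fin 2 → ℝ) →L[ℝ] ℝ => L v) this
  have hinj : Function.Injective (fderiv ℝ (sys c x) u).toLinearMap := by
    intro v v' hvv
    funext i
    fin_cases i
    · have := congrFun hvv 1
      simpa [h1] using this
    · have := congrFun hvv 2
      simpa [h2] using this
  rw [LinearMap.finrank_range_of_inj hinj]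
  simp

end FlatOrder
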