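import Mathlib

/-!
# Order of flat outputs: the algebraic descent
-/

namespace FlatOrder

variable {F : Type*} [Field F] [CharZero F]

/-- A field with the total derivative `D`, the derivations `δ j = ∂/∂y₁^(j)` and
`η j = ∂/∂u^(j)` (only their relation for positive index matters). -/
structure JetDer (F : Type*) [Field F] where
  D : Derivation ℤ F F
  δ : ℕ → Derivation ℤ F F
  η : ℕ → Derivation ℤ F F
  δ_D_zero : ∀ a, δ 0 (D a) = D (δ 0 a)
  δ_D_succ : ∀ j a, δ (j + 1) (D a) = D (δ (j + 1) a) + δ j a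
  δ_comm : ∀ i j a, δ i (δ j a) = δ j (δ i a)
  η_D_succ : ∀ j a, η (j + 1) (D a) = D (η (j + 1) a) + η j a

/-- The data `L(c, s)` of the descent: a solution of the system with parameter `c` such that
`z₁` (given through `v = D z₁` and `p j = δ j z₁`) and `z` have order `< s` in `y₁`, and `k`, `l`
have order `≤ s`, with `δ s k ≠ 0`; `t` is the exact order in `u` of `D z`. -/
structure LData (J : JetDer F) (c : ℤ) (s : ℕ) where
  z : F
  k : F
  l : F
  v : F
  p : ℕ → F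
  t : ℕ
  hv : v = l + k * J.D z
  hE : J.D l = l ^ 2 - c * J.D z * J.D k
  hp0 : J.δ 0 v = J.D (p 0)
  hp : ∀ j, J.δ (j + 1) v = J.D (p (j + 1)) + p j
  hsym : ∀ i j, J.δ i (p j) = J.δ j (p i)
  hps : ∀ j, s ≤ j → p j = 0
  hz : ∀ j, s ≤ j → J.δ j z = 0
  hk : ∀ j, s < j → J.δ j k = 0
  hl : ∀ j, s < j → J.δ j l = 0
  hw : J.δ s k ≠ 0
  ηq : J.η t (J.D z) ≠ 0
  ηq' : ∀ j, t < j → J.η j (J.D z) = 0
  ηz : ∀ j, t < j → J.η j z = 0
  ηk : ∀ j, t < j → J.η j k = 0
  ηl : ∀ j, t < j → J.η j l = 0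

end FlatOrder
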