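import Mathlib

/-!
# Order of flat outputs: abstract function field on the jets of a control system
-/

namespace FlatOrder

/-- Coordinates on jets: states and derivatives `u_b^(j)` of the inputs. -/
abbrev Coord (n m : ℕ) : Type := Fin n ⊕ (ℕ × Fin m)

/-- Abstract function field on the jets of a control system: a field with the total derivative
`D`, coordinate functions `X` and the differential `d a = ∑ (∂_α a) dX_α`. -/
structure JetFun (K : Type*) [Field K] (n m : ℕ) where
  D : Derivation ℤ K K
  d : K → (Coord n m →₀ K)
  X : Coord n m → K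
  d_add : ∀ a b, d (a + b) = d a + d b
  d_mul : ∀ a b, d (a * b) = a • d b + b • d a
  d_X : ∀ α, d (X α) = Finsupp.single α 1
  d_symm : ∀ a α β, d (d a α) β = d (d a β) α
  D_X : ∀ j b, D (X (Sum.inr (j, b))) = X (Sum.inr (j + 1, b))
  d_state : ∀ i j b, 1 ≤ j → d (D (X (Sum.inl i))) (Sum.inr (j, b)) = 0
  d_D : ∀ a, d (D a) = (d a).sum fun α x => x • d (D (X α)) + Finsupp.single α (D x)

end FlatOrder
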