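import Pool.Agent.Helper62.FO.Alg
import Pool.Agent.Helper62.FO.JetFun
import Pool.Agent.Helper51.FO.YBasis
import Pool.Agent.Helper78.FO.DualDer
import Pool.Agent.Helper28.FO.Descent

/-! MP_12f184_an: the bound for the order of a flat output, algebraic assembly (written by helper51). -/

namespace FlatOrder



namespace Bound

variable {K : Type*} [Field K] {n m : ℕ}

/-- `∂/∂u_b^(j)` as a derivation -/
noncomputable def eta (J : JetFun K n m) (b : Fin m) (j : ℕ) : Derivation ℤ K K :=
  DualDer.derF J (Finsupp.lapply (Sum.inr (j, b)))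

theorem eta_apply (J : JetFun K n m) (b : Fin m) (j : ℕ) (a : K) :
    eta J b j a = J.d a (Sum.inr (j, b)) := rfl

theorem L_succ (J : JetFun K n m) (w : Coord n m →₀ K) (j : ℕ) (b : Fin m) :
    DualDer.L J w (Sum.inr (j + 1, b)) = J.D (w (Sum.inr (j + 1, b))) + w (Sum.inr (j, b)) := by
  classical
  induction w using Finsupp.induction_linear with
  | zero => simp [DualDer.L_zero]
  | add f g hf hg =>
    rw [DualDer.L_add, Finsupp.add_apply, hf, hg, Finsupp.add_apply, Finsupp.add_apply, map_add]
    abel
  | single α x =>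
    rw [DualDer.L_single, Finsupp.add_apply, Finsupp.smul_apply, smul_eq_mul]
    rcases α with i | ⟨j', b'⟩
    · rw [J.d_state i (j + 1) b (by omega)]
      simp
    · rw [J.D_X, J.d_X, add_comm]
      congr 1
      · simp only [Finsupp.single_apply]
        split_ifs <;> simp
      · have : (Sum.inr (j' + 1, b') : Coord n m) = Sum.inr (j + 1, b) ↔
            (Sum.inr (j', b') : Coord n m) = Sum.inr (j, b) := by simp
        simp only [Finsupp.single_apply, this]
        split_ifs <;> simp

theorem eta_D_succ (J : JetFun K n m) (b : Fin m) (j : ℕ) (a : K) :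
    eta J b (j + 1) (J.D a) = J.D (eta J b (j + 1) a) + eta J b j a := by
  rw [eta_apply, eta_apply, eta_apply, DualDer.d_D, L_succ]

theorem eta_inl (J : JetFun K n m) (b : Fin m) (j : ℕ) (i : Fin n) :
    eta J b j (J.X (Sum.inl i)) = 0 := by
  rw [eta_apply, J.d_X]
  simp

theorem eta_inr_self (J : JetFun K n m) (b : Fin m) : eta J b 0 (J.X (Sum.inr (0, b))) = 1 := by
  rw [eta_apply, J.d_X]
  simp

theorem eta_inr (J : JetFun K n m) (b b' : Fin m) (j : ℕ) (hj : 0 < j) :
    eta J b j (J.X (Sum.inr (0, b'))) = 0 := by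
  rw [eta_apply, J.d_X, Finsupp.single_apply, if_neg]
  intro h
  have := congrArg Prod.fst (Sum.inr.inj h)
  simp at this
  omega

end Bound

open FlatOrder.Bound in
theorem order_bound {K : Type*} [Field K] [CharZero K] (P : ℕ) (J : JetFun K 4 2) (y : Fin 2 → K)
    (r : ℕ)
    (hD0 : J.D (J.X (Sum.inl 0)) = J.X (Sum.inl 3) + J.X (Sum.inl 2) * J.X (Sum.inr (0, 0)))
    (hD1 : J.D (J.X (Sum.inl 1)) = J.X (Sum.inr (0, 0)))
    (hD2 : J.D (J.X (Sum.inl 2)) = J.X (Sum.inr (0, 1)))
    (hD3 : J.D (J.X (Sum.inl 3)) = J.X (Sum.inl 3) ^ 2 -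
      (2 * P + 3) * J.X (Sum.inr (0, 0)) * J.X (Sum.inr (0, 1)))
    (hr : ∀ i j b, r < j → J.d (y i) (Sum.inr (j, b)) = 0)
    (hspan : ∃ s : ℕ, ∀ α : Coord 4 2, (∀ j b, α = Sum.inr (j, b) → j = 0) →
      J.d (J.X α) ∈ Submodule.span K {ω | ∃ (i : Fin 2) (t : ℕ), t ≤ s ∧ ω = J.d (J.D^[t] (y i))}) :
    2 * P ≤ r + 3 := by
  classical
  obtain ⟨hli, hsp⟩ := y_basis J y hspan
  obtain ⟨δ, h0, hs1, hcomm, hfin, hex, hlast⟩ := exists_dual_derivations J y r hr hli hsp
    (by
      intro b
      fin_cases b
      · exact ⟨1, hD1.symm⟩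
      · exact ⟨2, hD2.symm⟩)
  -- maximal order in the dual variable
  obtain ⟨s, hsz, hsne⟩ : ∃ s : ℕ, (∀ i j, s < j → δ j (J.X (Sum.inl i)) = 0) ∧
      ∃ i, δ s (J.X (Sum.inl i)) ≠ 0 := by
    have hN : ∃ N, ∀ i j, N ≤ j → δ j (J.X (Sum.inl i)) = 0 := by
      choose N hN using fun i : Fin 4 => hfin (J.X (Sum.inl i))
      refine ⟨Finset.univ.sup N, fun i j hj => hN i j ?_⟩
      exact (Finset.le_sup (Finset.mem_univ i)).trans hj
    have hpos : Nat.find hN ≠ 0 := by
      intro h
      obtain ⟨i, j, hij⟩ := hex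
      have := Nat.find_spec hN i j (by omega)
      exact hij this
    obtain ⟨s, hs⟩ : ∃ s, Nat.find hN = s + 1 := ⟨Nat.find hN - 1, by omega⟩
    refine ⟨s, fun i j hj => Nat.find_spec hN i j (by omega), ?_⟩
    by_contra hcon
    push Not at hcon
    have : ¬ (∀ i j, s ≤ j → δ j (J.X (Sum.inl i)) = 0) := Nat.find_min hN (by omega)
    apply this
    intro i j hj
    rcases eq_or_lt_of_le hj with h | h
    · rw [← h]; exact hcon i
    · exact Nat.find_spec hN i j (by omega)
  obtain ⟨z1, hz1⟩ : ∃ a, a = J.X (Sum.inl 0) := ⟨_, rfl⟩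
  obtain ⟨z2, hz2⟩ : ∃ a, a = J.X (Sum.inl 1) := ⟨_, rfl⟩
  obtain ⟨k, hk⟩ : ∃ a, a = J.X (Sum.inl 2) := ⟨_, rfl⟩
  obtain ⟨l, hl⟩ : ∃ a, a = J.X (Sum.inl 3) := ⟨_, rfl⟩
  have q0 : J.X (Sum.inr (0, 0)) = J.D z2 := by rw [hz2, hD1]
  have w0 : J.X (Sum.inr (0, 1)) = J.D k := by rw [hk, hD2]
  have e0 : J.D z1 = l + k * J.D z2 := by rw [← q0, hz1, hl, hk, hD0]
  have e3 : J.D l = l ^ 2 - (2 * P + 3) * J.D z2 * J.D k := by rw [← q0, ← w0, hl, hD3]
  have v1 : ∀ j, s < j → δ j z1 = 0 := fun j hj => by rw [hz1]; exact hsz 0 j hj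
  have v2 : ∀ j, s < j → δ j z2 = 0 := fun j hj => by rw [hz2]; exact hsz 1 j hj
  have vk : ∀ j, s < j → δ j k = 0 := fun j hj => by rw [hk]; exact hsz 2 j hj
  have vl : ∀ j, s < j → δ j l = 0 := fun j hj => by rw [hl]; exact hsz 3 j hj
  have hs' : s < s + 1 := Nat.lt_succ_self s
  have dq : δ (s + 1) (J.D z2) = δ s z2 := by rw [hs1, v2 _ hs', map_zero, zero_add]
  have dw : δ (s + 1) (J.D k) = δ s k := by rw [hs1, vk _ hs', map_zero, zero_add]
  have d1 : δ (s + 1) (J.D z1) = δ s z1 := by rw [hs1, v1 _ hs', map_zero, zero_add]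
  have dl : δ (s + 1) (J.D l) = δ s l := by rw [hs1, vl _ hs', map_zero, zero_add]
  have f0 : δ s z1 = k * δ s z2 := by
    rw [← d1, e0, map_add, Derivation.leibniz, dq, vl _ hs', vk _ hs']
    simp
  have hcP : ∀ (i : ℕ) (a : K), δ i ((2 * P + 3) * a) = (2 * P + 3) * δ i a := by
    intro i a
    have h1 : ((2 * P + 3 : K)) * a = (2 * P + 3 : ℕ) • a := by
      rw [nsmul_eq_mul]; push_cast; ring
    rw [h1, map_nsmul, nsmul_eq_mul]; push_cast; ring
  have f3 : δ s l = -((2 * P + 3) * (J.D k * δ s z2 + J.D z2 * δ s k)) := by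
    rw [← dl, e3, map_sub, mul_assoc, hcP, Derivation.leibniz, dq, dw, sq, Derivation.leibniz,
      vl _ hs']
    simp only [smul_eq_mul]
    ring
  have hc0 : (2 * P + 3 : K) ≠ 0 := by
    have : ((2 * P + 3 : ℕ) : K) ≠ 0 := Nat.cast_ne_zero.2 (by omega)
    intro h
    apply this
    push_cast
    exact h
  have f4 : δ s z2 * δ s k = 0 := by
    have h1 : δ (s + 1) (δ s l) = 0 := by rw [hcomm, vl _ hs', map_zero]
    rw [f3, map_neg, hcP, map_add, Derivation.leibniz, Derivation.leibniz, dq, dw,
      hcomm (s + 1) s z2, hcomm (s + 1) s k, v2 _ hs', vk _ hs', map_zero] at h1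
    simp only [smul_eq_mul, mul_zero, zero_add] at h1
    have h2 : (2 * P + 3 : K) * (2 * (δ s z2 * δ s k)) = 0 := by linear_combination -h1
    rcases mul_eq_zero.1 h2 with h | h
    · exact absurd h hc0
    · rcases mul_eq_zero.1 h with h | h
      · exact absurd h two_ne_zero
      · exact h
  by_cases hks : δ s k = 0
  · -- the second case
    have hz2s : δ s z2 ≠ 0 := by
      intro h
      rw [h, mul_zero] at f0
      rw [h, hks, mul_zero, mul_zero, add_zero, mul_zero, neg_zero] at f3
      obtain ⟨i, hi⟩ := hsne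
      apply hi
      fin_cases i
      · rw [← f0, hz1]; rfl
      · rw [← h, hz2]; rfl
      · rw [← hks, hk]; rfl
      · rw [← f3, hl]; rfl
    let J' : JetDer K :=
      { D := J.D
        δ := δ
        η := eta J 1
        δ_D_zero := h0
        δ_D_succ := hs1
        δ_comm := hcomm
        η_D_succ := fun j a => eta_D_succ J 1 j a }
    have hv2 : ∀ j, s ≤ j → δ j k = 0 := by
      intro j hj
      rcases eq_or_lt_of_le hj with h | h
      · rw [← h]; exact hks
      · exact vk j h
    have hLD : LData J' (-(2 * P + 3)) s :=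
      { z := k
        k := -z2
        l := l
        v := J.D (z1 - k * z2)
        p := fun j => δ j (z1 - k * z2)
        t := 0
        hv := by
          change J.D (z1 - k * z2) = l + -z2 * J.D k
          rw [map_sub, Derivation.leibniz, e0]
          simp only [smul_eq_mul]
          ring
        hE := by
          change J.D l = l ^ 2 - ((-(2 * P + 3) : ℤ) : K) * J.D k * J.D (-z2)
          rw [e3, map_neg]
          push_cast
          ring
        hp0 := h0 _
        hp := fun j => hs1 j _
        hsym := fun i j => hcomm i j _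
        hps := by
          intro j hj
          show δ j (z1 - k * z2) = 0
          rw [map_sub, Derivation.leibniz, hv2 j hj, smul_zero, add_zero, smul_eq_mul]
          rcases eq_or_lt_of_le hj with h | h
          · rw [← h, f0, sub_self]
          · rw [v1 j h, v2 j h, mul_zero, sub_zero]
        hz := hv2
        hk := fun j hj => by
          change δ j (-z2) = 0
          rw [map_neg, v2 j hj, neg_zero]
        hl := vl
        hw := by
          change δ s (-z2) ≠ 0
          rw [map_neg]
          exact neg_ne_zero.2 hz2s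
        ηq := by
          change eta J 1 0 (J.D k) ≠ 0
          rw [← w0, eta_inr_self]
          exact one_ne_zero
        ηq' := by
          intro j hj
          change eta J 1 j (J.D k) = 0
          rw [← w0, eta_inr J 1 1 j hj]
        ηz := by
          intro j hj
          change eta J 1 j k = 0
          rw [hk, eta_inl]
        ηk := by
          intro j hj
          change eta J 1 j (-z2) = 0
          rw [map_neg, hz2, eta_inl, neg_zero]
        ηl := by
          intro j hj
          change eta J 1 j l = 0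
          rw [hl, eta_inl] }
    exact (ldata_neg hLD (by omega)).elim
  · -- the first case
    have hz2s : δ s z2 = 0 := (mul_eq_zero.1 f4).resolve_right hks
    let J' : JetDer K :=
      { D := J.D
        δ := δ
        η := eta J 0
        δ_D_zero := h0
        δ_D_succ := hs1
        δ_comm := hcomm
        η_D_succ := fun j a => eta_D_succ J 0 j a }
    have hLD : LData J' (2 * P + 3) s :=
      { z := z2
        k := k
        l := l
        v := J.D z1
        p := fun j => δ j z1
        t := 0
        hv := e0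
        hE := by
          change J.D l = l ^ 2 - ((2 * P + 3 : ℤ) : K) * J.D z2 * J.D k
          rw [e3]
          push_cast
          ring
        hp0 := h0 _
        hp := fun j => hs1 j _
        hsym := fun i j => hcomm i j _
        hps := by
          intro j hj
          rcases eq_or_lt_of_le hj with h | h
          · rw [← h, f0, hz2s, mul_zero]
          · exact v1 j h
        hz := by
          intro j hj
          rcases eq_or_lt_of_le hj with h | h
          · rw [← h]; exact hz2s
          · exact v2 j h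
        hk := vk
        hl := vl
        hw := hks
        ηq := by
          change eta J 0 0 (J.D z2) ≠ 0
          rw [← q0, eta_inr_self]
          exact one_ne_zero
        ηq' := by
          intro j hj
          change eta J 0 j (J.D z2) = 0
          rw [← q0, eta_inr J 0 0 j hj]
        ηz := by
          intro j hj
          change eta J 0 j z2 = 0
          rw [hz2, eta_inl]
        ηk := by
          intro j hj
          change eta J 0 j k = 0
          rw [hk, eta_inl]
        ηl := by
          intro j hj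
          change eta J 0 j l = 0
          rw [hl, eta_inl] }
    have h1 := ldata_pos P hLD
    have h2 : s ≤ r + 3 := by
      refine hlast 1 s ?_ ?_
      · rw [w0, dw]; exact hks
      · intro j hj
        obtain ⟨j', rfl⟩ : ∃ j', j = j' + 1 := ⟨j - 1, by omega⟩
        rw [w0, hs1, vk _ (by omega), vk _ (by omega), map_zero, zero_add]
    omega

end FlatOrder
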