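import Mathlib

/-!
# Order of flat outputs (MP_12f184_an): definitions

Control systems `x' = f(x,u)` with `n` states and `m` inputs; functions of the system variables
`x, u, u', u'', ...` are functions on the jet space `Jet n m`.
-/

namespace FlatOrder

/-- Jets of a control system with `n` states and `m` inputs: `(x, (u, u', u'', ...))`, with the
product topology. -/
abbrev Jet (n m : ℕ) : Type := (Fin n → ℝ) × (ℕ → Fin m → ℝ)

/-- The time derivative of the jet `(x, u, u', ...)` along trajectories of `x' = f(x,u)`. -/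
def prolong {n m : ℕ} (f : (Fin n → ℝ) → (Fin m → ℝ) → (Fin n → ℝ)) (p : Jet n m) : Jet n m :=
  (f p.1 (p.2 0), fun j => p.2 (j + 1))

/-- Time derivative, along trajectories of `x' = f(x,u)`, of a function of the system variables. -/
noncomputable def totalDeriv {n m : ℕ} (f : (Fin n → ℝ) → (Fin m → ℝ) → (Fin n → ℝ))
    (g : Jet n m → ℝ) : Jet n m → ℝ :=
  fun p => lineDeriv ℝ g p (prolong f p)

/-- The finite jet `(x, u, ..., u^(r))`. -/
def trunc {n m : ℕ} (r : ℕ) (p : Jet n m) : (Fin n → ℝ) × (Fin (r + 1) → Fin m → ℝ) :=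
  (p.1, fun j => p.2 j)

/-- The output jet `(y, y', ..., y^(s))` of `y = (h 0, ..., h (m-1))`. -/
noncomputable def outJet {n m : ℕ} (f : (Fin n → ℝ) → (Fin m → ℝ) → (Fin n → ℝ))
    (h : Fin m → Jet n m → ℝ) (s : ℕ) (p : Jet n m) : Fin (s + 1) → Fin m → ℝ :=
  fun j i => ((totalDeriv f)^[(j : ℕ)] (h i)) p

/-- `y = (h 0, ..., h (m-1))` is a flat output of `x' = f(x,u)` on the set `W` of jets, and it
depends on `u` only through derivatives of order at most `r`: each `h i` is an analytic function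
of `(x, u, ..., u^(r))` on `W`, and `x` and `u` are analytic functions of `(y, y', ..., y^(s))`
on `W` for some `s`. -/
structure IsFlatOutput {n m : ℕ} (f : (Fin n → ℝ) → (Fin m → ℝ) → (Fin n → ℝ))
    (W : Set (Jet n m)) (r : ℕ) (h : Fin m → Jet n m → ℝ) : Prop where
  order_le : ∀ i, ∃ H : (Fin n → ℝ) × (Fin (r + 1) → Fin m → ℝ) → ℝ, ∀ p ∈ W,
    AnalyticAt ℝ H (trunc r p) ∧ h i p = H (trunc r p)
  recover : ∃ (s : ℕ) (Φ : (Fin (s + 1) → Fin m → ℝ) → (Fin n → ℝ) × (Fin m → ℝ)), ∀ p ∈ W,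
    AnalyticAt ℝ Φ (outJet f h s p) ∧ Φ (outJet f h s p) = (p.1, p.2 0)

/-- The system is `r`-flat: near every point of a dense open set of jets it has a flat output
depending on `u` only through derivatives of order at most `r`. -/
def IsRFlat {n m : ℕ} (f : (Fin n → ℝ) → (Fin m → ℝ) → (Fin n → ℝ)) (r : ℕ) : Prop :=
  ∃ O : Set (Jet n m), IsOpen O ∧ Dense O ∧ ∀ p ∈ O, ∃ W : Set (Jet n m), IsOpen W ∧ p ∈ W ∧
    ∃ h : Fin m → Jet n m → ℝ, IsFlatOutput f W r h

/-- The system is flat: near every point of a dense open set of jets it has a flat output. -/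
def IsFlat {n m : ℕ} (f : (Fin n → ℝ) → (Fin m → ℝ) → (Fin n → ℝ)) : Prop :=
  ∃ O : Set (Jet n m), IsOpen O ∧ Dense O ∧ ∀ p ∈ O, ∃ W : Set (Jet n m), IsOpen W ∧ p ∈ W ∧
    ∃ (r : ℕ) (h : Fin m → Jet n m → ℝ), IsFlatOutput f W r h

/-- A real-analytic control system with independent inputs (`rank ∂f/∂u = m`). -/
structure IsAnalyticSystem {n m : ℕ} (f : (Fin n → ℝ) → (Fin m → ℝ) → (Fin n → ℝ)) : Prop where
  analytic : AnalyticOnNhd ℝ (fun p : (Fin n → ℝ) × (Fin m → ℝ) => f p.1 p.2) Set.univ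
  rank_eq : ∀ x u, Module.finrank ℝ (LinearMap.range (fderiv ℝ (f x) u).toLinearMap) = m

/-- The system `z₁' = l + k q`, `z₂' = q`, `k' = w`, `l' = l² - c q w` with states
`(z₁, z₂, k, l)` and inputs `(q, w)`. -/
def sys (c : ℝ) (x : Fin 4 → ℝ) (u : Fin 2 → ℝ) : Fin 4 → ℝ :=
  ![x 3 + x 2 * u 0, u 0, u 1, x 3 ^ 2 - c * u 0 * u 1]

end FlatOrder
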