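import Pool.Agent.Helper62.FO.Defs

/-!
# Order of flat outputs (MP_12f184_an): flat outputs of smoothness class `K`

`K = ω` is real-analytic, `K = ∞` is smooth.
-/

namespace FlatOrder

open scoped ContDiff

/-- `y = (h 0, ..., h (m-1))` is a flat output of class `C^K` of `x' = f(x,u)` on the set `W` of
jets, and it depends on `u` only through derivatives of order at most `r`: each `h i` is a `C^K`
function of `(x, u, ..., u^(r))` on `W`, and `x` and `u` are `C^K` functions of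
`(y, y', ..., y^(s))` on `W` for some `s`. -/
structure IsFlatOutputC (K : WithTop ℕ∞) {n m : ℕ} (f : (Fin n → ℝ) → (Fin m → ℝ) → (Fin n → ℝ))
    (W : Set (Jet n m)) (r : ℕ) (h : Fin m → Jet n m → ℝ) : Prop where
  order_le : ∀ i, ∃ H : (Fin n → ℝ) × (Fin (r + 1) → Fin m → ℝ) → ℝ, ∀ p ∈ W,
    ContDiffAt ℝ K H (trunc r p) ∧ h i p = H (trunc r p)
  recover : ∃ (s : ℕ) (Φ : (Fin (s + 1) → Fin m → ℝ) → (Fin n → ℝ) × (Fin m → ℝ)), ∀ p ∈ W,
    ContDiffAt ℝ K Φ (outJet f h s p) ∧ Φ (outJet f h s p) = (p.1, p.2 0)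

/-- The system is `r`-flat (in class `C^K`): near every point of a dense open set of jets it has a
flat output depending on `u` only through derivatives of order at most `r`. -/
def IsRFlatC (K : WithTop ℕ∞) {n m : ℕ} (f : (Fin n → ℝ) → (Fin m → ℝ) → (Fin n → ℝ)) (r : ℕ) :
    Prop :=
  ∃ O : Set (Jet n m), IsOpen O ∧ Dense O ∧ ∀ p ∈ O, ∃ W : Set (Jet n m), IsOpen W ∧ p ∈ W ∧
    ∃ h : Fin m → Jet n m → ℝ, IsFlatOutputC K f W r h

/-- The system is flat (in class `C^K`): near every point of a dense open set of jets it has a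
flat output. -/
def IsFlatC (K : WithTop ℕ∞) {n m : ℕ} (f : (Fin n → ℝ) → (Fin m → ℝ) → (Fin n → ℝ)) : Prop :=
  ∃ O : Set (Jet n m), IsOpen O ∧ Dense O ∧ ∀ p ∈ O, ∃ W : Set (Jet n m), IsOpen W ∧ p ∈ W ∧
    ∃ (r : ℕ) (h : Fin m → Jet n m → ℝ), IsFlatOutputC K f W r h

theorem contDiffAt_omega {E F : Type*} [NormedAddCommGroup E] [NormedSpace ℝ E]
    [NormedAddCommGroup F] [NormedSpace ℝ F] [CompleteSpace F] {g : E → F} {x : E} :
    ContDiffAt ℝ ω g x ↔ AnalyticAt ℝ g x := by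
  rw [← analyticWithinAt_univ, ← contDiffWithinAt_omega_iff_analyticWithinAt, contDiffWithinAt_univ]

theorem IsFlatOutputC.mono {K K' : WithTop ℕ∞} (hK : K ≤ K') {n m : ℕ}
    {f : (Fin n → ℝ) → (Fin m → ℝ) → (Fin n → ℝ)} {W : Set (Jet n m)} {r : ℕ}
    {h : Fin m → Jet n m → ℝ} (hfl : IsFlatOutputC K' f W r h) : IsFlatOutputC K f W r h := by
  refine ⟨fun i => ?_, ?_⟩
  · obtain ⟨H, hH⟩ := hfl.order_le i
    exact ⟨H, fun p hp => ⟨(hH p hp).1.of_le hK, (hH p hp).2⟩⟩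
  · obtain ⟨s, Φ, hΦ⟩ := hfl.recover
    exact ⟨s, Φ, fun p hp => ⟨(hΦ p hp).1.of_le hK, (hΦ p hp).2⟩⟩

theorem isFlatOutputC_omega {n m : ℕ}
    {f : (Fin n → ℝ) → (Fin m → ℝ) → (Fin n → ℝ)} {W : Set (Jet n m)} {r : ℕ}
    {h : Fin m → Jet n m → ℝ} : IsFlatOutputC ω f W r h ↔ IsFlatOutput f W r h := by
  constructor
  · intro hfl
    refine ⟨fun i => ?_, ?_⟩
    · obtain ⟨H, hH⟩ := hfl.order_le i
      exact ⟨H, fun p hp => ⟨contDiffAt_omega.1 (hH p hp).1, (hH p hp).2⟩⟩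
    · obtain ⟨s, Φ, hΦ⟩ := hfl.recover
      exact ⟨s, Φ, fun p hp => ⟨contDiffAt_omega.1 (hΦ p hp).1, (hΦ p hp).2⟩⟩
  · intro hfl
    refine ⟨fun i => ?_, ?_⟩
    · obtain ⟨H, hH⟩ := hfl.order_le i
      exact ⟨H, fun p hp => ⟨contDiffAt_omega.2 (hH p hp).1, (hH p hp).2⟩⟩
    · obtain ⟨s, Φ, hΦ⟩ := hfl.recover
      exact ⟨s, Φ, fun p hp => ⟨contDiffAt_omega.2 (hΦ p hp).1, (hΦ p hp).2⟩⟩

theorem IsFlat.toC {K : WithTop ℕ∞} {n m : ℕ} {f : (Fin n → ℝ) → (Fin m → ℝ) → (Fin n → ℝ)}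
    (h : IsFlat f) : IsFlatC K f := by
  obtain ⟨O, hO, hd, h⟩ := h
  refine ⟨O, hO, hd, fun p hp => ?_⟩
  obtain ⟨W, hW, hpW, r, g, hg⟩ := h p hp
  exact ⟨W, hW, hpW, r, g, (isFlatOutputC_omega.2 hg).mono le_top⟩

end FlatOrder
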