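import Pool.Agent.Helper62.FO.NoFlat
import Pool.Agent.Helper42.FO.Flat

/-!
# Order of flat outputs: assembly
-/

namespace FlatOrder

open scoped ContDiff

theorem lower_bound (hB : OrderBound) (P : ℕ) (W : Set (Jet 4 2)) (r : ℕ)
    (h : Fin 2 → Jet 4 2 → ℝ) (hW : IsOpen W) (hne : W.Nonempty)
    (hfl : IsFlatOutputC ∞ (sys (2 * P + 1)) W r h) : 2 * P ≤ r + 5 := by
  rcases P with _ | P
  · omega
  · have e : (2 * ((P + 1 : ℕ) : ℝ) + 1) = 2 * P + 3 := by push_cast; ring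
    rw [e] at hfl
    have := no_flat_output hB P r hW hne hfl
    omega

theorem unbounded (hB : OrderBound) (K : WithTop ℕ∞) (hK : K = ∞ ∨ K = ω) :
    ¬ ∀ n m : ℕ, ∃ κ : ℕ, ∀ f : (Fin n → ℝ) → (Fin m → ℝ) → (Fin n → ℝ),
      IsAnalyticSystem f → IsFlatC K f → IsRFlatC K f κ := by
  intro hall
  obtain ⟨κ, hκ⟩ := hall 4 2
  obtain ⟨O, hO, hd, h⟩ := hκ (sys (2 * ((κ + 3 : ℕ) : ℝ) + 1)) (isAnalyticSystem_sys _)
    (isFlat_sys (κ + 3)).toC
  obtain ⟨p, hp⟩ := hd.nonempty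
  obtain ⟨W, hW, hpW, g, hg⟩ := h p hp
  have hK' : ∞ ≤ K := by
    rcases hK with rfl | rfl
    · exact le_rfl
    · exact le_top
  have := lower_bound hB (κ + 3) W κ g hW ⟨p, hpW⟩ (hg.mono hK')
  omega

end FlatOrder
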