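import Pool.Agent.Helper62.FO.JetInst
import Pool.Agent.Helper62.FO.DefsC

/-!
# Order of flat outputs: a flat output on an open set gives a differential basis
-/

namespace FlatOrder

open scoped Topology ContDiff
open Filter

variable {n m : ℕ} {U : Ultrafilter (Jet n m)} {f : (Fin n → ℝ) → (Fin m → ℝ) → (Fin n → ℝ)}
  {W : Set (Jet n m)} {r : ℕ} {h : Fin m → Jet n m → ℝ}

theorem IsFlatOutputC.sgood (hfl : IsFlatOutputC ∞ f W r h) (hW : IsOpen W) (i : Fin m)
    {p : Jet n m} (hp : p ∈ W) : SGood r (h i) p := by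
  obtain ⟨H, hH⟩ := hfl.order_le i
  refine ⟨H, ?_⟩
  filter_upwards [hW.mem_nhds hp] with q hq using hH q hq

theorem sgood_iterate
    (hf : AnalyticOnNhd ℝ (fun z : (Fin n → ℝ) × (Fin m → ℝ) => f z.1 z.2) Set.univ)
    {N : ℕ} {g : Jet n m → ℝ} {p : Jet n m} (hg : SGood N g p) (t : ℕ) :
    SGood (N + t) ((totalDeriv f)^[t] g) p := by
  induction t with
  | zero => exact hg
  | succ t ih =>
    rw [Function.iterate_succ_apply']
    exact ih.totalDeriv_good hf

/-- The element of the function field given by a component of a flat output. -/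
noncomputable def outF (hfl : IsFlatOutputC ∞ f W r h) (hW : IsOpen W) (hWU : W ∈ U) (i : Fin m) :
    FunField U :=
  mkF (h i) ⟨r, by filter_upwards [hWU] with p hp using hfl.sgood hW i hp⟩

theorem DD_iterate (hU : IsGeneric U)
    (hf : AnalyticOnNhd ℝ (fun z : (Fin n → ℝ) × (Fin m → ℝ) => f z.1 z.2) Set.univ)
    {g : Jet n m → ℝ} {N : ℕ} (hg : ∀ᶠ p in (U : Filter (Jet n m)), SGood N g p) (t : ℕ) :
    (DD hU hf)^[t] (mkF g ⟨N, hg⟩) = mkF ((totalDeriv f)^[t] g)
      ⟨N + t, hg.mono fun _ hp => sgood_iterate hf hp t⟩ := by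
  induction t with
  | zero => rfl
  | succ t ih =>
    rw [Function.iterate_succ_apply', ih]
    unfold DD
    rw [LocalDer.der_mkF, mkF_eq_iff]
    refine Eventually.of_forall fun p => ?_
    show totalDeriv f ((totalDeriv f)^[t] g) p = _
    rw [Function.iterate_succ_apply']

theorem outF_order (hU : IsGeneric U)
    (hf : AnalyticOnNhd ℝ (fun z : (Fin n → ℝ) × (Fin m → ℝ) => f z.1 z.2) Set.univ)
    (hfl : IsFlatOutputC ∞ f W r h) (hW : IsOpen W) (hWU : W ∈ U) (i : Fin m) {j : ℕ}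
    (hj : r < j) (b : Fin m) :
    (jetFun hU hf).d (outF hfl hW hWU i) (Sum.inr (j, b)) = 0 := by
  show pd hU _ (mkF _ _) = 0
  unfold pd
  rw [LocalDer.der_mkF, mkF_const_zero, mkF_eq_iff]
  filter_upwards [hWU] with p hp
  exact slineDeriv_eq_zero_of_trunc (hfl.sgood hW i hp) (trunc_dir hj b)

/-- Coordinates recovered by a flat output. -/
def IsLow (α : Coord n m) : Prop := ∀ j b, α = Sum.inr (j, b) → j = 0

/-- Chain rule in the function field. -/
theorem outF_span (hU : IsGeneric U)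
    (hf : AnalyticOnNhd ℝ (fun z : (Fin n → ℝ) × (Fin m → ℝ) => f z.1 z.2) Set.univ)
    (hfl : IsFlatOutputC ∞ f W r h) (hW : IsOpen W) (hWU : W ∈ U) :
    ∃ s : ℕ, ∀ α : Coord n m, (∀ j b, α = Sum.inr (j, b) → j = 0) →
      (jetFun hU hf).d ((jetFun hU hf).X α) ∈ Submodule.span (FunField U)
        {v | ∃ (i : Fin m) (t : ℕ), t ≤ s ∧
          v = (jetFun hU hf).d ((jetFun hU hf).D^[t] (outF hfl hW hWU i))} := by
  obtain ⟨s, Φ, hΦ⟩ := hfl.recover
  refine ⟨s, fun α hα => ?_⟩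
  -- scalar function recovering the coordinate `α`
  obtain ⟨φ, hφ⟩ : ∃ φ : (Fin (s + 1) → Fin m → ℝ) → ℝ, ∀ p ∈ W,
      ContDiffAt ℝ ∞ φ (outJet f h s p) ∧ φ (outJet f h s p) = coordFun α p := by
    rcases α with i | ⟨j, b⟩
    · refine ⟨fun z => (Φ z).1 i, fun p hp => ⟨?_, ?_⟩⟩
      · have h1 : ContDiffAt ℝ ∞ (fun z => (Φ z).1) (outJet f h s p) := (hΦ p hp).1.fst
        exact contDiffAt_pi.1 h1 i
      · show (Φ (outJet f h s p)).1 i = p.1 i
        rw [(hΦ p hp).2]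
    · obtain rfl := hα j b rfl
      refine ⟨fun z => (Φ z).2 b, fun p hp => ⟨?_, ?_⟩⟩
      · have h1 : ContDiffAt ℝ ∞ (fun z => (Φ z).2) (outJet f h s p) := (hΦ p hp).1.snd
        exact contDiffAt_pi.1 h1 b
      · show (Φ (outJet f h s p)).2 b = p.2 0 b
        rw [(hΦ p hp).2]
  -- uncurried version
  let e : ((Fin (s + 1) × Fin m) → ℝ) →L[ℝ] (Fin (s + 1) → Fin m → ℝ) :=
    LinearMap.toContinuousLinearMap
      { toFun := fun z j i => z (j, i)
        map_add' := fun _ _ => rfl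
        map_smul' := fun _ _ => rfl }
  let g : (Fin (s + 1) × Fin m) → Jet n m → ℝ := fun ι => (totalDeriv f)^[(ι.1 : ℕ)] (h ι.2)
  have hg : ∀ p ∈ W, ∀ ι, SGood (r + s) (g ι) p := fun p hp ι =>
    (sgood_iterate hf (hfl.sgood hW ι.2 hp) _).mono (by omega)
  have heg : ∀ p, e (fun ι => g ι p) = outJet f h s p := fun p => rfl
  let ψ : ((Fin (s + 1) × Fin m) → ℝ) → ℝ := fun z => φ (e z)
  have hψ : ∀ p ∈ W, ContDiffAt ℝ ∞ ψ (fun ι => g ι p) := fun p hp =>
    ContDiffAt.fun_comp (g := φ) (f := fun z => e z) _ (by rw [heg]; exact (hφ p hp).1)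
      e.contDiff.contDiffAt
  have hψc : ∀ p ∈ W, coordFun α =ᶠ[𝓝 p] fun q => ψ (fun ι => g ι q) := by
    intro p hp
    filter_upwards [hW.mem_nhds hp] with q hq
    exact ((hφ q hq).2).symm
  -- coefficients
  let cf : (Fin (s + 1) × Fin m) → Jet n m → ℝ := fun ι p =>
    fderiv ℝ ψ (fun ι => g ι p) (Pi.single ι 1)
  have hcf : ∀ p ∈ W, ∀ ι, SGood (r + s) (cf ι) p := by
    intro p hp ι
    refine SGood.comp (Φ := fun z => fderiv ℝ ψ z (Pi.single ι 1)) (hg p hp) ?_
    filter_upwards [hW.mem_nhds hp] with p' hp'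
    exact (contDiffAt_fderiv (hψ p' hp')).clm_apply contDiffAt_const
  have hcf' : ∀ ι, ∀ᶠ p in (U : Filter (Jet n m)), SGood (r + s) (cf ι) p := fun ι => by
    filter_upwards [hWU] with p hp using hcf p hp ι
  have hy : ∀ ι : Fin (s + 1) × Fin m, (jetFun hU hf).D^[(ι.1 : ℕ)] (outF hfl hW hWU ι.2) =
      mkF (g ι) ⟨r + ι.1, by
        filter_upwards [hWU] with p hp using sgood_iterate hf (hfl.sgood hW ι.2 hp) _⟩ := fun ι =>
    DD_iterate hU hf (N := r) (by
      filter_upwards [hWU] with p hp using hfl.sgood hW ι.2 hp) _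
  have hsum : (jetFun hU hf).d ((jetFun hU hf).X α) =
      ∑ ι : Fin (s + 1) × Fin m, (mkF (cf ι) ⟨r + s, hcf' ι⟩ : FunField U) •
        (jetFun hU hf).d ((jetFun hU hf).D^[(ι.1 : ℕ)] (outF hfl hW hWU ι.2)) := by
    refine Finsupp.ext fun β => ?_
    rw [Finsupp.finsetSum_apply]
    simp only [Finsupp.smul_apply, smul_eq_mul]
    have h1 : ∀ ι : Fin (s + 1) × Fin m,
        (jetFun hU hf).d ((jetFun hU hf).D^[(ι.1 : ℕ)] (outF hfl hW hWU ι.2)) β =
        pd hU β (mkF (g ι) ⟨r + ι.1, by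
          filter_upwards [hWU] with p hp using sgood_iterate hf (hfl.sgood hW ι.2 hp) _⟩) := by
      intro ι
      rw [hy ι]
      rfl
    simp only [h1]
    show pd hU β (mkF (coordFun α) ⟨ord α, Eventually.of_forall fun p => good_coord α p⟩) = _
    apply Subtype.ext
    rw [AddSubmonoidClass.coe_finsetSum]
    simp only [MulMemClass.coe_mul]
    unfold pd
    simp only [LocalDer.der_mkF, mkF_val]
    have h2 : ∀ ι : Fin (s + 1) × Fin m, ((cf ι : Jet n m → ℝ) : Germ (U : Filter (Jet n m)) ℝ) *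
        (((lineLocal (dir β)).T (g ι) : Jet n m → ℝ) : Germ (U : Filter (Jet n m)) ℝ) =
        Germ.coeRingHom (U : Filter (Jet n m)) (fun p => cf ι p *
          (lineLocal (dir β)).T (g ι) p) := fun ι => rfl
    simp only [h2]
    rw [← map_sum]
    refine Germ.coe_eq.2 ?_
    filter_upwards [hWU] with p hp
    rw [Finset.sum_apply]
    show lineDeriv ℝ (coordFun α) p (dir β) = ∑ ι, cf ι p * lineDeriv ℝ (g ι) p (dir β)
    rw [lineDeriv_congr (hψc p hp), slineDeriv_comp_good (hg p hp) ((hψ p hp).differentiableAt (by simp))]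
    have h3 : (fun ι => lineDeriv ℝ (g ι) p (dir β)) =
        ∑ ι, lineDeriv ℝ (g ι) p (dir β) • (Pi.single ι 1 : (Fin (s + 1) × Fin m) → ℝ) := by
      funext ι
      simp [Finset.sum_apply, Pi.single_apply]
    rw [h3, map_sum]
    refine Finset.sum_congr rfl fun ι _ => ?_
    rw [map_smul, smul_eq_mul, mul_comm]
  rw [hsum]
  refine Submodule.sum_mem _ fun ι _ => Submodule.smul_mem _ _ (Submodule.subset_span ?_)
  exact ⟨ι.2, ι.1, by have := ι.1.2; omega, rfl⟩

end FlatOrder
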