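import Pool.Agent.Helper62.FO.SGood

/-!
# Order of flat outputs: the field of functions at a generic ultrafilter
-/

namespace FlatOrder

open scoped Topology
open Filter

variable {n m : ℕ}

/-- An ultrafilter on jets containing all dense open sets. -/
def IsGeneric (U : Ultrafilter (Jet n m)) : Prop :=
  ∀ O : Set (Jet n m), IsOpen O → Dense O → O ∈ U

theorem exists_generic {W : Set (Jet n m)} (hW : IsOpen W) (hne : W.Nonempty) :
    ∃ U : Ultrafilter (Jet n m), W ∈ U ∧ IsGeneric U := by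
  let F : Filter (Jet n m) :=
    { sets := {S | ∃ O : Set (Jet n m), IsOpen O ∧ Dense O ∧ O ∩ W ⊆ S}
      univ_sets := ⟨Set.univ, isOpen_univ, dense_univ, Set.subset_univ _⟩
      sets_of_superset := by
        rintro S T ⟨O, h1, h2, h3⟩ hST
        exact ⟨O, h1, h2, h3.trans hST⟩
      inter_sets := by
        rintro S T ⟨O, h1, h2, h3⟩ ⟨O', h1', h2', h3'⟩
        refine ⟨O ∩ O', h1.inter h1', h2.inter_of_isOpen_left h2' h1, ?_⟩
        rintro x ⟨⟨hx, hx'⟩, hxW⟩
        exact ⟨h3 ⟨hx, hxW⟩, h3' ⟨hx', hxW⟩⟩ }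
  have hF : NeBot F := by
    refine ⟨fun h => ?_⟩
    have : (∅ : Set (Jet n m)) ∈ F := by rw [h]; exact mem_bot
    obtain ⟨O, h1, h2, h3⟩ := this
    obtain ⟨x, hx, hx'⟩ := h2.inter_open_nonempty W hW hne
    exact h3 ⟨hx', hx⟩
  obtain ⟨U, hU⟩ := Ultrafilter.exists_le F
  refine ⟨U, hU ⟨Set.univ, isOpen_univ, dense_univ, by simp⟩, fun O h1 h2 => hU ⟨O, h1, h2, ?_⟩⟩
  exact Set.inter_subset_left

/-- Key property: a good function vanishing `U`-almost everywhere vanishes near `U`-almost every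
point. -/
theorem IsGeneric.eventually_nhds {U : Ultrafilter (Jet n m)} (hU : IsGeneric U) {N : ℕ}
    {g : Jet n m → ℝ} (hg : ∀ᶠ p in (U : Filter (Jet n m)), SGood N g p)
    (h0 : ∀ᶠ p in (U : Filter (Jet n m)), g p = 0) :
    ∀ᶠ p in (U : Filter (Jet n m)), g =ᶠ[𝓝 p] fun _ => 0 := by
  set Z : Set (Jet n m) := {p | SGood N g p} with hZ
  have hZo : IsOpen Z := isOpen_iff_mem_nhds.2 fun p hp => SGood.eventually hp
  set A : Set (Jet n m) := {p | g =ᶠ[𝓝 p] fun _ => 0} with hA
  have hAo : IsOpen A := isOpen_iff_mem_nhds.2 fun p hp => Filter.Eventually.eventually_nhds hp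
  set B : Set (Jet n m) := {p | p ∈ Z ∧ g p ≠ 0} with hB
  have hBo : IsOpen B := by
    refine isOpen_iff_mem_nhds.2 fun p hp => ?_
    have h1 : ∀ᶠ q in 𝓝 p, q ∈ Z := hZo.mem_nhds hp.1
    have h2 : ∀ᶠ q in 𝓝 p, g q ≠ 0 := (SGood.continuousAt hp.1).eventually_ne hp.2
    filter_upwards [h1, h2] with q hq1 hq2 using ⟨hq1, hq2⟩
  have hd : Dense (A ∪ B ∪ (closure Z)ᶜ) := by
    rw [dense_iff_inter_open]
    intro V hV ⟨x, hx⟩
    by_cases hVZ : (V ∩ Z).Nonempty
    · obtain ⟨y, hyV, hyZ⟩ := hVZ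
      by_cases hy : y ∈ A
      · exact ⟨y, hyV, Or.inl (Or.inl hy)⟩
      · have h3 : ∃ᶠ q in 𝓝 y, g q ≠ 0 := Filter.not_eventually.1 hy
        have h4 : ∀ᶠ q in 𝓝 y, q ∈ V ∩ Z := (hV.inter hZo).mem_nhds ⟨hyV, hyZ⟩
        obtain ⟨q, hq1, hq2⟩ := (h3.and_eventually h4).exists
        exact ⟨q, hq2.1, Or.inl (Or.inr ⟨hq2.2, hq1⟩)⟩
    · refine ⟨x, hx, Or.inr fun hxc => hVZ ?_⟩
      exact mem_closure_iff.1 hxc V hV hx
  have hm := hU _ ((hAo.union hBo).union isClosed_closure.isOpen_compl) hd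
  filter_upwards [hm, hg, h0] with p h1 h2 h3
  rcases h1 with (h1 | h1) | h1
  · exact h1
  · exact absurd h3 h1.2
  · exact absurd (subset_closure (s := Z) h2) h1

/-- The field of germs, along the ultrafilter `U`, of analytic functions of finitely many jet
coordinates. -/
def FunField (U : Ultrafilter (Jet n m)) : Subfield (Germ (U : Filter (Jet n m)) ℝ) where
  carrier := {a | ∃ (N : ℕ) (g : Jet n m → ℝ), a = (g : Germ (U : Filter (Jet n m)) ℝ) ∧
    ∀ᶠ p in (U : Filter (Jet n m)), SGood N g p}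
  mul_mem' := by
    rintro a b ⟨N, g, rfl, hg⟩ ⟨M, g', rfl, hg'⟩
    refine ⟨max N M, fun q => g q * g' q, rfl, ?_⟩
    filter_upwards [hg, hg'] with p h1 h2
    exact (h1.mono (le_max_left _ _)).mul (h2.mono (le_max_right _ _))
  one_mem' := ⟨0, fun _ => 1, rfl, Eventually.of_forall fun p => sgood_const _ _ p⟩
  add_mem' := by
    rintro a b ⟨N, g, rfl, hg⟩ ⟨M, g', rfl, hg'⟩
    refine ⟨max N M, fun q => g q + g' q, rfl, ?_⟩
    filter_upwards [hg, hg'] with p h1 h2
    exact (h1.mono (le_max_left _ _)).add (h2.mono (le_max_right _ _))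
  zero_mem' := ⟨0, fun _ => 0, rfl, Eventually.of_forall fun p => sgood_const _ _ p⟩
  neg_mem' := by
    rintro a ⟨N, g, rfl, hg⟩
    refine ⟨N, fun q => - g q, rfl, ?_⟩
    filter_upwards [hg] with p h1 using h1.neg
  inv_mem' := by
    rintro a ⟨N, g, rfl, hg⟩
    by_cases h0 : ∀ᶠ p in (U : Filter (Jet n m)), g p = 0
    · refine ⟨0, fun _ => 0, ?_, Eventually.of_forall fun p => sgood_const _ _ p⟩
      have : (g : Germ (U : Filter (Jet n m)) ℝ) = ((fun _ => 0 : Jet n m → ℝ) :
          Germ (U : Filter (Jet n m)) ℝ) := Germ.coe_eq.2 h0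
      rw [this]
      exact inv_zero
    · refine ⟨N, fun q => (g q)⁻¹, rfl, ?_⟩
      have h1 : ∀ᶠ p in (U : Filter (Jet n m)), g p ≠ 0 := by
        rw [← Ultrafilter.eventually_not] at h0
        exact h0
      filter_upwards [hg, h1] with p h2 h3 using h2.inv h3

variable {U : Ultrafilter (Jet n m)}

/-- The element of the function field given by a good function. -/
def mkF (g : Jet n m → ℝ) (hg : ∃ N, ∀ᶠ p in (U : Filter (Jet n m)), SGood N g p) : FunField U :=
  ⟨(g : Germ (U : Filter (Jet n m)) ℝ), by obtain ⟨N, h⟩ := hg; exact ⟨N, g, rfl, h⟩⟩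

theorem mkF_eq_iff {g g' : Jet n m → ℝ} {hg : ∃ N, ∀ᶠ p in (U : Filter (Jet n m)), SGood N g p}
    {hg' : ∃ N, ∀ᶠ p in (U : Filter (Jet n m)), SGood N g' p} :
    mkF g hg = mkF g' hg' ↔ ∀ᶠ p in (U : Filter (Jet n m)), g p = g' p := by
  unfold mkF
  rw [Subtype.mk_eq_mk]
  exact Germ.coe_eq

theorem exists_rep (a : FunField U) : ∃ (N : ℕ) (g : Jet n m → ℝ)
    (hg : ∀ᶠ p in (U : Filter (Jet n m)), SGood N g p), a = mkF g ⟨N, hg⟩ := by
  obtain ⟨a, N, g, rfl, hg⟩ := a
  exact ⟨N, g, hg, rfl⟩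

theorem mkF_add {g g' : Jet n m → ℝ} (hg : ∃ N, ∀ᶠ p in (U : Filter (Jet n m)), SGood N g p)
    (hg' : ∃ N, ∀ᶠ p in (U : Filter (Jet n m)), SGood N g' p)
    (h : ∃ N, ∀ᶠ p in (U : Filter (Jet n m)), SGood N (fun q => g q + g' q) p) :
    mkF (fun q => g q + g' q) h = mkF g hg + mkF g' hg' := rfl

theorem mkF_mul {g g' : Jet n m → ℝ} (hg : ∃ N, ∀ᶠ p in (U : Filter (Jet n m)), SGood N g p)
    (hg' : ∃ N, ∀ᶠ p in (U : Filter (Jet n m)), SGood N g' p)
    (h : ∃ N, ∀ᶠ p in (U : Filter (Jet n m)), SGood N (fun q => g q * g' q) p) :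
    mkF (fun q => g q * g' q) h = mkF g hg * mkF g' hg' := rfl

/-- A local derivation on functions on jets. -/
structure LocalDer (n m : ℕ) where
  T : (Jet n m → ℝ) → (Jet n m → ℝ)
  good : ∀ {N : ℕ} {g : Jet n m → ℝ} {p : Jet n m}, SGood N g p → SGood (N + 1) (T g) p
  loc : ∀ {g g' : Jet n m → ℝ} {p : Jet n m}, g =ᶠ[𝓝 p] g' → T g p = T g' p
  add : ∀ {N : ℕ} {g g' : Jet n m → ℝ} {p : Jet n m}, SGood N g p → SGood N g' p →
    T (fun q => g q + g' q) p = T g p + T g' p
  mul : ∀ {N : ℕ} {g g' : Jet n m → ℝ} {p : Jet n m}, SGood N g p → SGood N g' p →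
    T (fun q => g q * g' q) p = g p * T g' p + g' p * T g p

theorem LocalDer.exists_good (T : LocalDer n m) {g : Jet n m → ℝ}
    (hg : ∃ N, ∀ᶠ p in (U : Filter (Jet n m)), SGood N g p) :
    ∃ N, ∀ᶠ p in (U : Filter (Jet n m)), SGood N (T.T g) p := by
  obtain ⟨N, h⟩ := hg
  exact ⟨N + 1, h.mono fun p hp => T.good hp⟩

/-- The operator induced by a local derivation on the function field. -/
noncomputable def LocalDer.lift (T : LocalDer n m) (a : FunField U) : FunField U :=
  mkF (T.T (exists_rep a).choose_spec.choose)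
    (T.exists_good ⟨_, (exists_rep a).choose_spec.choose_spec.choose⟩)

theorem LocalDer.lift_mkF (T : LocalDer n m) (hU : IsGeneric U) {g : Jet n m → ℝ}
    (hg : ∃ N, ∀ᶠ p in (U : Filter (Jet n m)), SGood N g p) :
    T.lift (mkF g hg) = mkF (T.T g) (T.exists_good hg) := by
  unfold LocalDer.lift
  set r := exists_rep (mkF g hg) with hr
  have h1 : ∀ᶠ p in (U : Filter (Jet n m)), SGood r.choose r.choose_spec.choose p :=
    r.choose_spec.choose_spec.choose
  have h2 : mkF g hg = mkF r.choose_spec.choose ⟨_, h1⟩ := r.choose_spec.choose_spec.choose_spec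
  rw [mkF_eq_iff] at h2
  obtain ⟨N, hN⟩ := hg
  have h3 : ∀ᶠ p in (U : Filter (Jet n m)),
      SGood (max N r.choose) (fun q => g q - r.choose_spec.choose q) p := by
    filter_upwards [hN, h1] with p h4 h5
    exact (h4.mono (le_max_left _ _)).sub (h5.mono (le_max_right _ _))
  have h4 : ∀ᶠ p in (U : Filter (Jet n m)), g p - r.choose_spec.choose p = 0 := by
    filter_upwards [h2] with p hp
    rw [hp, sub_self]
  have h5 := hU.eventually_nhds h3 h4
  rw [mkF_eq_iff]
  filter_upwards [h5] with p hp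
  refine T.loc ?_
  filter_upwards [hp] with q hq
  linarith

/-- The derivation of the function field induced by a local derivation. -/
noncomputable def LocalDer.der (T : LocalDer n m) (hU : IsGeneric U) :
    Derivation ℤ (FunField U) (FunField U) :=
  Derivation.mk' (AddMonoidHom.toIntLinearMap
    { toFun := T.lift
      map_zero' := by
        have h0 : (0 : FunField U) = mkF (fun _ => 0) ⟨0, Eventually.of_forall fun p =>
          sgood_const _ _ p⟩ := rfl
        rw [h0, T.lift_mkF hU, mkF_eq_iff]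
        refine Eventually.of_forall fun p => ?_
        have := T.add (sgood_const 0 0 p) (sgood_const 0 0 p)
        simp only [add_zero] at this
        linarith
      map_add' := by
        intro a b
        obtain ⟨N, g, hg, rfl⟩ := exists_rep a
        obtain ⟨M, g', hg', rfl⟩ := exists_rep b
        have hs : ∀ᶠ p in (U : Filter (Jet n m)), SGood (max N M) (fun q => g q + g' q) p := by
          filter_upwards [hg, hg'] with p h1 h2
          exact (h1.mono (le_max_left _ _)).add (h2.mono (le_max_right _ _))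
        rw [← mkF_add ⟨N, hg⟩ ⟨M, hg'⟩ ⟨_, hs⟩, T.lift_mkF hU, T.lift_mkF hU, T.lift_mkF hU,
          ← mkF_add _ _ (by
            refine ⟨max N M + 1, ?_⟩
            filter_upwards [hg, hg'] with p h1 h2
            exact (T.good (h1.mono (le_max_left _ _))).add
              (T.good (h2.mono (le_max_right _ _)))), mkF_eq_iff]
        filter_upwards [hg, hg'] with p h1 h2
        exact T.add (h1.mono (le_max_left _ _)) (h2.mono (le_max_right _ _)) })
    (by
      intro a b
      obtain ⟨N, g, hg, rfl⟩ := exists_rep a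
      obtain ⟨M, g', hg', rfl⟩ := exists_rep b
      have hs : ∀ᶠ p in (U : Filter (Jet n m)), SGood (max N M) (fun q => g q * g' q) p := by
        filter_upwards [hg, hg'] with p h1 h2
        exact (h1.mono (le_max_left _ _)).mul (h2.mono (le_max_right _ _))
      show T.lift (mkF g ⟨N, hg⟩ * mkF g' ⟨M, hg'⟩) =
        mkF g ⟨N, hg⟩ * T.lift (mkF g' ⟨M, hg'⟩) + mkF g' ⟨M, hg'⟩ * T.lift (mkF g ⟨N, hg⟩)
      rw [← mkF_mul ⟨N, hg⟩ ⟨M, hg'⟩ ⟨_, hs⟩, T.lift_mkF hU, T.lift_mkF hU, T.lift_mkF hU,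
        ← mkF_mul _ _ (by
            refine ⟨max N M + 1, ?_⟩
            filter_upwards [hg, hg'] with p h1 h2
            exact ((h1.mono (le_max_left _ _)).mono (Nat.le_succ _)).mul
              (T.good (h2.mono (le_max_right _ _)))),
        ← mkF_mul _ _ (by
            refine ⟨max N M + 1, ?_⟩
            filter_upwards [hg, hg'] with p h1 h2
            exact ((h2.mono (le_max_right _ _)).mono (Nat.le_succ _)).mul
              (T.good (h1.mono (le_max_left _ _)))),
        ← mkF_add _ _ (by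
            refine ⟨max N M + 1, ?_⟩
            filter_upwards [hg, hg'] with p h1 h2
            exact (((h1.mono (le_max_left _ _)).mono (Nat.le_succ _)).mul
              (T.good (h2.mono (le_max_right _ _)))).add
              (((h2.mono (le_max_right _ _)).mono (Nat.le_succ _)).mul
              (T.good (h1.mono (le_max_left _ _))))), mkF_eq_iff]
      filter_upwards [hg, hg'] with p h1 h2
      exact T.mul (h1.mono (le_max_left _ _)) (h2.mono (le_max_right _ _)))

theorem LocalDer.der_mkF (T : LocalDer n m) (hU : IsGeneric U) {g : Jet n m → ℝ}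
    (hg : ∃ N, ∀ᶠ p in (U : Filter (Jet n m)), SGood N g p) :
    T.der hU (mkF g hg) = mkF (T.T g) (T.exists_good hg) :=
  T.lift_mkF hU hg

end FlatOrder
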