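import Pool.Agent.Helper62.FO.Defs

/-!
# Order of flat outputs: functions of finitely many jet coordinates
-/

namespace FlatOrder

open scoped Topology
open Filter

variable {n m : ℕ}

/-- Finite jets `(x, u, ..., u^(N))`. -/
abbrev TJet (n m N : ℕ) : Type := (Fin n → ℝ) × (Fin (N + 1) → Fin m → ℝ)

/-- `trunc` as a continuous linear map. -/
noncomputable def truncL (n m N : ℕ) : Jet n m →L[ℝ] TJet n m N where
  toFun := trunc N
  map_add' _ _ := rfl
  map_smul' _ _ := rfl
  cont := by unfold trunc; fun_prop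

@[simp] theorem truncL_apply (N : ℕ) (p : Jet n m) : truncL n m N p = trunc N p := rfl

theorem continuous_trunc (N : ℕ) : Continuous (trunc (n := n) (m := m) N) :=
  (truncL n m N).continuous

/-- Restriction of finite jets. -/
noncomputable def resL (n m : ℕ) {N M : ℕ} (h : N ≤ M) : TJet n m M →L[ℝ] TJet n m N where
  toFun q := (q.1, fun j => q.2 (Fin.castLE (by omega) j))
  map_add' _ _ := rfl
  map_smul' _ _ := rfl
  cont := by fun_prop

theorem resL_trunc {N M : ℕ} (h : N ≤ M) (p : Jet n m) : resL n m h (trunc M p) = trunc N p := rfl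

/-- `g` is, near `p`, an analytic function of `(x, u, ..., u^(N))`. -/
def Good (N : ℕ) (g : Jet n m → ℝ) (p : Jet n m) : Prop :=
  ∃ φ : TJet n m N → ℝ, AnalyticAt ℝ φ (trunc N p) ∧ g =ᶠ[𝓝 p] fun p' => φ (trunc N p')

theorem Good.mono {N M : ℕ} (h : N ≤ M) {g : Jet n m → ℝ} {p : Jet n m} (hg : Good N g p) :
    Good M g p := by
  obtain ⟨φ, hφ, he⟩ := hg
  refine ⟨fun q => φ (resL n m h q), ?_, ?_⟩
  · exact AnalyticAt.fun_comp (by simpa [resL_trunc h p] using hφ) ((resL n m h).analyticAt _)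
  · simpa [resL_trunc h] using he

theorem Good.congr {N : ℕ} {g g' : Jet n m → ℝ} {p : Jet n m} (hg : Good N g p)
    (h : g' =ᶠ[𝓝 p] g) : Good N g' p := by
  obtain ⟨φ, hφ, he⟩ := hg
  exact ⟨φ, hφ, h.trans he⟩

theorem Good.eventually {N : ℕ} {g : Jet n m → ℝ} {p : Jet n m} (hg : Good N g p) :
    ∀ᶠ p' in 𝓝 p, Good N g p' := by
  obtain ⟨φ, hφ, he⟩ := hg
  have h1 : ∀ᶠ p' in 𝓝 p, AnalyticAt ℝ φ (trunc N p') :=
    (continuous_trunc N).continuousAt.eventually hφ.eventually_analyticAt
  filter_upwards [h1, he.eventually_nhds] with p' h2 h3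
  exact ⟨φ, h2, h3⟩

theorem Good.continuousAt {N : ℕ} {g : Jet n m → ℝ} {p : Jet n m} (hg : Good N g p) :
    ContinuousAt g p := by
  obtain ⟨φ, hφ, he⟩ := hg
  refine ContinuousAt.congr ?_ he.symm
  exact ContinuousAt.comp hφ.continuousAt (continuous_trunc N).continuousAt

theorem good_const (N : ℕ) (a : ℝ) (p : Jet n m) : Good N (fun _ => a) p :=
  ⟨fun _ => a, analyticAt_const, Eventually.of_forall fun _ => rfl⟩

theorem good_state (N : ℕ) (i : Fin n) (p : Jet n m) : Good N (fun p => p.1 i) p := by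
  refine ⟨fun q => q.1 i, ?_, Eventually.of_forall fun _ => rfl⟩
  have h : AnalyticAt ℝ (fun q : TJet n m N => q.1) (trunc N p) := analyticAt_fst
  exact analyticAt_pi_iff.1 h i

theorem good_input {N : ℕ} {j : ℕ} (h : j ≤ N) (b : Fin m) (p : Jet n m) :
    Good N (fun p => p.2 j b) p := by
  refine ⟨fun q => q.2 ⟨j, by omega⟩ b, ?_, Eventually.of_forall fun _ => rfl⟩
  have h : AnalyticAt ℝ (fun q : TJet n m N => q.2) (trunc N p) := analyticAt_snd
  exact analyticAt_pi_iff.1 (analyticAt_pi_iff.1 h ⟨j, by omega⟩) b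

/-- Composition with an analytic function of finitely many good functions (values in a product
of copies of `ℝ` indexed by a finite type). -/
theorem Good.comp {ι : Type*} [Fintype ι] {N : ℕ} {g : ι → Jet n m → ℝ} {p : Jet n m}
    (hg : ∀ i, Good N (g i) p) {Φ : (ι → ℝ) → ℝ} (hΦ : AnalyticAt ℝ Φ (fun i => g i p)) :
    Good N (fun p' => Φ (fun i => g i p')) p := by
  choose φ hφ he using hg
  refine ⟨fun q => Φ (fun i => φ i q), ?_, ?_⟩
  · have h1 : AnalyticAt ℝ (fun q : TJet n m N => fun i => φ i q) (trunc N p) :=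
      AnalyticAt.pi fun i => hφ i
    refine AnalyticAt.fun_comp ?_ h1
    have : (fun i => φ i (trunc N p)) = fun i => g i p := by
      funext i; exact ((he i).self_of_nhds).symm
    rw [this]; exact hΦ
  · have : ∀ᶠ p' in 𝓝 p, ∀ i, g i p' = φ i (trunc N p') := eventually_all.2 he
    filter_upwards [this] with p' hp'
    congr 1
    funext i; exact hp' i

end FlatOrder
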