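import Pool.Agent.Helper62.FO.FunField
import Pool.Agent.Helper62.FO.JetFun
import Pool.Agent.Helper62.FO.Sys
import Pool.Agent.Helper51.FO.Calc

/-!
# Order of flat outputs: the function field of a control system as a `JetFun`
-/

namespace FlatOrder

open scoped Topology
open Filter

variable {n m : ℕ}

/-- Line derivative in a constant direction as a local derivation. -/
noncomputable def lineLocal (v : Jet n m) : LocalDer n m where
  T g p := lineDeriv ℝ g p v
  good hg := (hg.lineDeriv_good v).mono (Nat.le_succ _)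
  loc h := lineDeriv_congr h v
  add hg hg' := slineDeriv_add_good hg hg' v
  mul hg hg' := slineDeriv_mul_good hg hg' v

/-- The total derivative as a local derivation. -/
noncomputable def totalLocal (f : (Fin n → ℝ) → (Fin m → ℝ) → (Fin n → ℝ))
    (hf : AnalyticOnNhd ℝ (fun z : (Fin n → ℝ) × (Fin m → ℝ) => f z.1 z.2) Set.univ) :
    LocalDer n m where
  T := totalDeriv f
  good hg := hg.totalDeriv_good hf
  loc h := lineDeriv_congr h _
  add hg hg' := slineDeriv_add_good hg hg' _
  mul hg hg' := slineDeriv_mul_good hg hg' _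

/-- Unit direction of a coordinate. -/
def dir : Coord n m → Jet n m
  | Sum.inl i => es i
  | Sum.inr (j, b) => eu j b

/-- Coordinate functions. -/
def coordFun : Coord n m → Jet n m → ℝ
  | Sum.inl i, p => p.1 i
  | Sum.inr (j, b), p => p.2 j b

/-- Order of a coordinate. -/
def ord : Coord n m → ℕ
  | Sum.inl _ => 0
  | Sum.inr (j, _) => j

theorem good_coord (α : Coord n m) (p : Jet n m) : SGood (ord α) (coordFun α) p := by
  rcases α with i | ⟨j, b⟩
  · exact sgood_state _ i p
  · exact sgood_input le_rfl b p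

theorem lineDeriv_coord (α : Coord n m) (p v : Jet n m) :
    lineDeriv ℝ (coordFun α) p v = coordFun α v := by
  rcases α with i | ⟨j, b⟩
  · exact lineDeriv_state i p v
  · exact lineDeriv_input j b p v

theorem coord_dir (α β : Coord n m) : coordFun α (dir β) = if α = β then 1 else 0 := by
  rcases α with i | ⟨j, b⟩ <;> rcases β with i' | ⟨j', b'⟩
  · by_cases h : i = i'
    · subst h; simp [coordFun, dir, es]
    · simp [coordFun, dir, es, h]
  · simp [coordFun, dir, eu]
  · simp [coordFun, dir, es]
  · by_cases h : j = j'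
    · subst h
      by_cases h' : b = b'
      · subst h'; simp [coordFun, dir, eu]
      · simp [coordFun, dir, eu, h']
    · simp [coordFun, dir, eu, h]

theorem trunc_dir {N : ℕ} {j : ℕ} (h : N < j) (b : Fin m) :
    trunc N (dir (n := n) (Sum.inr (j, b))) = 0 := by
  unfold trunc dir eu
  refine Prod.ext rfl ?_
  funext x
  have : (x : ℕ) ≠ j := by omega
  simp [this]

theorem totalDeriv_coord (f : (Fin n → ℝ) → (Fin m → ℝ) → (Fin n → ℝ)) (α : Coord n m)
    (p : Jet n m) : totalDeriv f (coordFun α) p = coordFun α (prolong f p) :=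
  lineDeriv_coord α p _

variable {U : Ultrafilter (Jet n m)}

/-- Coordinates as elements of the function field. -/
noncomputable def XX (α : Coord n m) : FunField U :=
  mkF (coordFun α) ⟨ord α, Eventually.of_forall fun p => good_coord α p⟩

/-- Partial derivatives on the function field. -/
noncomputable def pd (hU : IsGeneric U) (α : Coord n m) :
    Derivation ℤ (FunField U) (FunField U) :=
  (lineLocal (dir α)).der hU

theorem pd_finite (hU : IsGeneric U) (a : FunField U) :
    (Function.support fun α : Coord n m => pd hU α a).Finite := by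
  obtain ⟨N, g, hg, rfl⟩ := exists_rep a
  have : (Function.support fun α : Coord n m => pd hU α (mkF g ⟨N, hg⟩)) ⊆
      (Set.range (Sum.inl : Fin n → Coord n m)) ∪
        (Set.range fun q : Fin (N + 1) × Fin m => (Sum.inr ((q.1 : ℕ), q.2) : Coord n m)) := by
    intro α hα
    rcases α with i | ⟨j, b⟩
    · exact Or.inl ⟨i, rfl⟩
    · right
      by_cases hj : j ≤ N
      · exact ⟨(⟨j, by omega⟩, b), rfl⟩
      · exfalso
        apply hα
        show pd hU _ _ = 0
        unfold pd
        rw [LocalDer.der_mkF]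
        have h0 : (0 : FunField U) = mkF (fun _ => 0) ⟨0, Eventually.of_forall fun p =>
          sgood_const _ _ p⟩ := rfl
        rw [h0, mkF_eq_iff]
        filter_upwards [hg] with p hp
        exact slineDeriv_eq_zero_of_trunc hp (trunc_dir (by omega) b)
  exact ((Set.finite_range _).union (Set.finite_range _)).subset this

theorem mkF_const_zero : (0 : FunField U) = mkF (fun _ => 0) ⟨0, Eventually.of_forall fun p =>
    sgood_const _ _ p⟩ := rfl

theorem mkF_const_one : (1 : FunField U) = mkF (fun _ => 1) ⟨0, Eventually.of_forall fun p =>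
    sgood_const _ _ p⟩ := rfl

/-- The differential of an element of the function field. -/
noncomputable def dd (hU : IsGeneric U) (a : FunField U) : Coord n m →₀ FunField U :=
  Finsupp.ofSupportFinite (fun α => pd hU α a) (pd_finite hU a)

@[simp] theorem dd_apply (hU : IsGeneric U) (a : FunField U) (α : Coord n m) :
    dd hU a α = pd hU α a := rfl

theorem pd_comm (hU : IsGeneric U) (α β : Coord n m) (a : FunField U) :
    pd hU β (pd hU α a) = pd hU α (pd hU β a) := by
  obtain ⟨N, g, hg, rfl⟩ := exists_rep a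
  unfold pd
  rw [LocalDer.der_mkF, LocalDer.der_mkF, LocalDer.der_mkF, LocalDer.der_mkF, mkF_eq_iff]
  filter_upwards [hg] with p hp
  exact slineDeriv_comm_good hp _ _

theorem pd_XX (hU : IsGeneric U) (α β : Coord n m) :
    pd hU β (XX α : FunField U) = if α = β then 1 else 0 := by
  unfold pd XX
  rw [LocalDer.der_mkF]
  split_ifs with h
  · rw [mkF_const_one, mkF_eq_iff]
    refine Eventually.of_forall fun p => ?_
    show lineDeriv ℝ (coordFun α) p (dir β) = 1
    rw [lineDeriv_coord, coord_dir, if_pos h]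
  · rw [mkF_const_zero, mkF_eq_iff]
    refine Eventually.of_forall fun p => ?_
    show lineDeriv ℝ (coordFun α) p (dir β) = 0
    rw [lineDeriv_coord, coord_dir, if_neg h]

variable {f : (Fin n → ℝ) → (Fin m → ℝ) → (Fin n → ℝ)}

/-- Coordinates of order at most `N`. -/
def coordsUpTo (n m N : ℕ) : Finset (Coord n m) :=
  (Finset.univ.image Sum.inl) ∪
    ((Finset.range (N + 1) ×ˢ Finset.univ).image Sum.inr)

theorem sum_coordsUpTo {R : Type*} [AddCommMonoid R] (N : ℕ) (F : Coord n m → R) :
    ∑ α ∈ coordsUpTo n m N, F α = ∑ i, F (Sum.inl i) +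
      ∑ j ∈ Finset.range (N + 1), ∑ b, F (Sum.inr (j, b)) := by
  unfold coordsUpTo
  rw [Finset.sum_union, Finset.sum_image (by intro _ _ _ _ h; exact Sum.inl_injective h),
    Finset.sum_image (by intro _ _ _ _ h; exact Sum.inr_injective h), Finset.sum_product]
  rw [Finset.disjoint_left]
  intro α h1 h2
  simp only [Finset.mem_image] at h1 h2
  obtain ⟨i, _, rfl⟩ := h1
  obtain ⟨q, _, hq⟩ := h2
  exact Sum.inr_ne_inl hq

theorem lineDeriv_eq_sum_coords {N : ℕ} {g : Jet n m → ℝ} {p : Jet n m} (hg : SGood N g p)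
    (v : Jet n m) : lineDeriv ℝ g p v =
      ∑ α ∈ coordsUpTo n m N, coordFun α v * lineDeriv ℝ g p (dir α) := by
  rw [sum_coordsUpTo, slineDeriv_eq_sum hg v]
  rfl

/-- The key identity for `d (D a)`, at a point. -/
theorem lineDeriv_totalDeriv_eq
    (hf : AnalyticOnNhd ℝ (fun z : (Fin n → ℝ) × (Fin m → ℝ) => f z.1 z.2) Set.univ)
    {N : ℕ} {g : Jet n m → ℝ} {p : Jet n m} (hg : SGood N g p) (β : Coord n m) :
    lineDeriv ℝ (totalDeriv f g) p (dir β) =
      ∑ α ∈ coordsUpTo n m N, lineDeriv ℝ g p (dir α) *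
        lineDeriv ℝ (totalDeriv f (coordFun α)) p (dir β) +
      totalDeriv f (fun q => lineDeriv ℝ g q (dir β)) p := by
  rw [slineDeriv_totalDeriv hf hg, lineDeriv_eq_sum_coords hg, add_comm]
  congr 1
  refine Finset.sum_congr rfl fun α _ => ?_
  rw [slineDeriv_totalDeriv hf (good_coord α p), lineDeriv_coord]
  have h1 : (fun q => lineDeriv ℝ (coordFun α) q (dir β)) = fun _ : Jet n m =>
      coordFun α (dir β) := by
    funext q; exact lineDeriv_coord _ _ _
  have h2 : totalDeriv f (fun q => lineDeriv ℝ (coordFun α) q (dir β)) p = 0 := by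
    rw [h1]
    unfold totalDeriv
    simp [lineDeriv]
  rw [h2, zero_add, mul_comm]

theorem mkF_val (g : Jet n m → ℝ) (hg) : ((mkF g hg : FunField U) : Germ (U : Filter (Jet n m)) ℝ) =
    (g : Germ (U : Filter (Jet n m)) ℝ) := rfl

/-- Total derivative on the function field. -/
noncomputable def DD (hU : IsGeneric U)
    (hf : AnalyticOnNhd ℝ (fun z : (Fin n → ℝ) × (Fin m → ℝ) => f z.1 z.2) Set.univ) :
    Derivation ℤ (FunField U) (FunField U) :=
  (totalLocal f hf).der hU

theorem pd_DD (hU : IsGeneric U)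
    (hf : AnalyticOnNhd ℝ (fun z : (Fin n → ℝ) × (Fin m → ℝ) => f z.1 z.2) Set.univ)
    {N : ℕ} {g : Jet n m → ℝ} (hg : ∀ᶠ p in (U : Filter (Jet n m)), SGood N g p) (β : Coord n m) :
    pd hU β (DD hU hf (mkF g ⟨N, hg⟩)) =
      ∑ α ∈ coordsUpTo n m N, pd hU α (mkF g ⟨N, hg⟩) * pd hU β (DD hU hf (XX α)) +
        DD hU hf (pd hU β (mkF g ⟨N, hg⟩)) := by
  apply Subtype.ext
  rw [AddMemClass.coe_add, AddSubmonoidClass.coe_finsetSum]
  simp only [MulMemClass.coe_mul]
  unfold pd DD XX
  simp only [LocalDer.der_mkF, mkF_val]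
  have h : ∀ α : Coord n m, (((lineLocal (dir α)).T g : Jet n m → ℝ) : Germ (U : Filter (Jet n m)) ℝ) *
      (((lineLocal (dir β)).T ((totalLocal f hf).T (coordFun α)) : Jet n m → ℝ) :
        Germ (U : Filter (Jet n m)) ℝ) =
      Germ.coeRingHom (U : Filter (Jet n m)) (fun p => (lineLocal (dir α)).T g p *
        (lineLocal (dir β)).T ((totalLocal f hf).T (coordFun α)) p) := fun α => rfl
  simp only [h]
  rw [← map_sum]
  refine Germ.coe_eq.2 ?_
  filter_upwards [hg] with p hp
  have := lineDeriv_totalDeriv_eq hf hp β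
  refine this.trans ?_
  show _ = (∑ α ∈ coordsUpTo n m N, (fun p => (lineLocal (dir α)).T g p *
        (lineLocal (dir β)).T ((totalLocal f hf).T (coordFun α)) p)) p + _
  rw [Finset.sum_apply]
  rfl

theorem mem_coordsUpTo {N : ℕ} {g : Jet n m → ℝ} (hU : IsGeneric U)
    (hg : ∀ᶠ p in (U : Filter (Jet n m)), SGood N g p) {α : Coord n m}
    (h : pd hU α (mkF g ⟨N, hg⟩) ≠ 0) : α ∈ coordsUpTo n m N := by
  unfold coordsUpTo
  rcases α with i | ⟨j, b⟩
  · simp
  · by_cases hj : j ≤ N
    · simp; omega
    · exfalso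
      apply h
      unfold pd
      rw [LocalDer.der_mkF, mkF_const_zero, mkF_eq_iff]
      filter_upwards [hg] with p hp
      exact slineDeriv_eq_zero_of_trunc hp (trunc_dir (by omega) b)

/-- The function field of the system as an abstract function field. -/
noncomputable def jetFun (hU : IsGeneric U)
    (hf : AnalyticOnNhd ℝ (fun z : (Fin n → ℝ) × (Fin m → ℝ) => f z.1 z.2) Set.univ) :
    JetFun (FunField U) n m where
  D := DD hU hf
  d := dd hU
  X := XX
  d_add a b := by refine Finsupp.ext fun α => ?_; simp [map_add]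
  d_mul a b := by refine Finsupp.ext fun α => ?_; simp [Derivation.leibniz]
  d_X α := by
    refine Finsupp.ext fun β => ?_
    rw [dd_apply, pd_XX, Finsupp.single_apply]
  d_symm a α β := pd_comm hU α β a
  D_X j b := by
    show DD hU hf (mkF _ _) = mkF _ _
    unfold DD
    rw [LocalDer.der_mkF, mkF_eq_iff]
    refine Eventually.of_forall fun p => ?_
    exact totalDeriv_coord f (Sum.inr (j, b)) p
  d_state i j b hj := by
    show pd hU _ (DD hU hf (mkF _ _)) = 0
    unfold pd DD
    rw [LocalDer.der_mkF, LocalDer.der_mkF, mkF_const_zero, mkF_eq_iff]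
    refine Eventually.of_forall fun p => ?_
    show lineDeriv ℝ (totalDeriv f (coordFun (Sum.inl i))) p (dir (Sum.inr (j, b))) = 0
    have h1 : totalDeriv f (coordFun (Sum.inl i)) = fun p => f p.1 (p.2 0) i := by
      funext p; exact totalDeriv_coord f (Sum.inl i) p
    rw [h1]
    unfold lineDeriv
    have h2 : (fun t : ℝ => f (p + t • dir (Sum.inr (j, b)) : Jet n m).1
        ((p + t • dir (Sum.inr (j, b)) : Jet n m).2 0) i) = fun _ => f p.1 (p.2 0) i := by
      funext t
      have h3 : (0 : ℕ) ≠ j := by omega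
      simp [dir, eu, h3]
    rw [h2, deriv_const]
  d_D a := by
    obtain ⟨N, g, hg, rfl⟩ := exists_rep a
    refine Finsupp.ext fun β => ?_
    have h1 := pd_DD hU hf hg β
    rw [dd_apply, h1, Finsupp.sum_apply, Finsupp.sum]
    simp only [Finsupp.add_apply, Finsupp.smul_apply, smul_eq_mul, dd_apply]
    rw [Finset.sum_add_distrib]
    refine congrArg₂ (· + ·) ?_ ?_
    · symm
      apply Finset.sum_subset
      · intro α hα
        exact mem_coordsUpTo hU hg (by simpa using hα)
      · intro α _ hα
        rw [Finsupp.notMem_support_iff, dd_apply] at hα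
        rw [hα, zero_mul]
    · rw [Finset.sum_eq_single β]
      · simp
      · intro α _ hα
        simp [hα]
      · intro hβ
        rw [Finsupp.notMem_support_iff, dd_apply] at hβ
        simp [hβ]

instance : CharZero (FunField U) := by
  refine ⟨fun a b hab => ?_⟩
  have h : ∀ k : ℕ, ((k : FunField U) : Germ (U : Filter (Jet n m)) ℝ) =
      ((fun _ => (k : ℝ) : Jet n m → ℝ) : Germ (U : Filter (Jet n m)) ℝ) := by
    intro k
    rw [show ((k : FunField U) : Germ (U : Filter (Jet n m)) ℝ) =
      (k : Germ (U : Filter (Jet n m)) ℝ) from by simp]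
    rfl
  have h1 := congrArg (Subtype.val) hab
  rw [h a, h b] at h1
  have h2 := Germ.coe_eq.1 h1
  obtain ⟨p, hp⟩ := h2.exists
  have h3 : (a : ℝ) = b := hp
  exact_mod_cast h3

end FlatOrder
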