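import Pool.Agent.Helper62.FO.FlatOut

/-!
# Order of flat outputs: the lower bound for `sys (2 P + 3)`
-/

namespace FlatOrder

open scoped Topology ContDiff
open Filter

/-- Statement of `order_bound` (proved in the algebraic part). -/
def OrderBound : Prop := ∀ {K : Type} [Field K] [CharZero K] (P : ℕ) (J : JetFun K 4 2)
    (y : Fin 2 → K) (r : ℕ)
    (_ : J.D (J.X (Sum.inl 0)) = J.X (Sum.inl 3) + J.X (Sum.inl 2) * J.X (Sum.inr (0, 0)))
    (_ : J.D (J.X (Sum.inl 1)) = J.X (Sum.inr (0, 0)))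
    (_ : J.D (J.X (Sum.inl 2)) = J.X (Sum.inr (0, 1)))
    (_ : J.D (J.X (Sum.inl 3)) = J.X (Sum.inl 3) ^ 2 -
      (2 * P + 3) * J.X (Sum.inr (0, 0)) * J.X (Sum.inr (0, 1)))
    (_ : ∀ i j b, r < j → J.d (y i) (Sum.inr (j, b)) = 0)
    (_ : ∃ s : ℕ, ∀ α : Coord 4 2, (∀ j b, α = Sum.inr (j, b) → j = 0) →
      J.d (J.X α) ∈ Submodule.span K {v | ∃ (i : Fin 2) (t : ℕ), t ≤ s ∧ v = J.d (J.D^[t] (y i))}),
    2 * P ≤ r + 3

variable {U : Ultrafilter (Jet 4 2)}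

theorem D_state (hU : IsGeneric U) (c : ℝ) (i : Fin 4)
    (hg : ∃ N, ∀ᶠ p in (U : Filter (Jet 4 2)), SGood N (fun p : Jet 4 2 => sys c p.1 (p.2 0) i) p) :
    (jetFun hU (sys_analytic c)).D ((jetFun hU (sys_analytic c)).X (Sum.inl i)) =
      mkF (fun p : Jet 4 2 => sys c p.1 (p.2 0) i) hg := by
  show DD hU (sys_analytic c) (mkF (coordFun (Sum.inl i))
    ⟨ord (Sum.inl i), Eventually.of_forall fun p => good_coord (Sum.inl i) p⟩) = _
  unfold DD
  rw [LocalDer.der_mkF, mkF_eq_iff]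
  refine Eventually.of_forall fun p => ?_
  exact totalDeriv_coord (sys c) (Sum.inl i) p

theorem sgood_sys (c : ℝ) (i : Fin 4) (p : Jet 4 2) :
    SGood 1 (fun p : Jet 4 2 => sys c p.1 (p.2 0) i) p := by
  have h := (good_coord (n := 4) (m := 2) (Sum.inl i) p).totalDeriv_good (sys_analytic c)
  refine (h.mono (by simp [ord])).congr ?_
  refine Eventually.of_forall fun q => ?_
  exact (totalDeriv_coord (sys c) (Sum.inl i) q).symm

theorem natCast_val (k : ℕ) : ((k : FunField U) : Germ (U : Filter (Jet 4 2)) ℝ) =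
      ((fun _ => (k : ℝ) : Jet 4 2 → ℝ) : Germ (U : Filter (Jet 4 2)) ℝ) := by
  rw [show ((k : FunField U) : Germ (U : Filter (Jet 4 2)) ℝ) =
    (k : Germ (U : Filter (Jet 4 2)) ℝ) from by simp]
  rfl

theorem no_flat_output (hB : OrderBound) (P r : ℕ) {W : Set (Jet 4 2)} (hW : IsOpen W)
    (hne : W.Nonempty) {h : Fin 2 → Jet 4 2 → ℝ}
    (hfl : IsFlatOutputC ∞ (sys (2 * P + 3)) W r h) : 2 * P ≤ r + 3 := by
  obtain ⟨U, hWU, hU⟩ := exists_generic hW hne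
  have hs : ∀ i : Fin 4, ∃ N, ∀ᶠ p in (U : Filter (Jet 4 2)),
      SGood N (fun p : Jet 4 2 => sys (2 * P + 3) p.1 (p.2 0) i) p := fun i =>
    ⟨1, Eventually.of_forall fun p => sgood_sys _ i p⟩
  refine hB P (jetFun hU (sys_analytic (2 * P + 3))) (outF hfl hW hWU) r ?_ ?_ ?_ ?_
    (fun i j b hj => outF_order hU (sys_analytic _) hfl hW hWU i hj b)
    (outF_span hU (sys_analytic _) hfl hW hWU)
  · rw [D_state hU _ 0 (hs 0)]; rfl
  · rw [D_state hU _ 1 (hs 1)]; rfl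
  · rw [D_state hU _ 2 (hs 2)]; rfl
  · rw [D_state hU _ 3 (hs 3)]
    apply Subtype.ext
    have h1 : (((2 * (P : FunField U) + 3 : FunField U)) : Germ (U : Filter (Jet 4 2)) ℝ) =
        ((fun _ => (2 * P + 3 : ℝ) : Jet 4 2 → ℝ) : Germ (U : Filter (Jet 4 2)) ℝ) := by
      have := natCast_val (U := U) (2 * P + 3)
      push_cast at this
      exact this
    show _ = ((XX (Sum.inl 3) : FunField U) : Germ (U : Filter (Jet 4 2)) ℝ) ^ 2 -
      (((2 * (P : FunField U) + 3 : FunField U)) : Germ (U : Filter (Jet 4 2)) ℝ) *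
        ((XX (Sum.inr (0, 0)) : FunField U) : Germ (U : Filter (Jet 4 2)) ℝ) *
        ((XX (Sum.inr (0, 1)) : FunField U) : Germ (U : Filter (Jet 4 2)) ℝ)
    rw [h1]
    rfl

end FlatOrder
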