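import Pool.Agent.Helper51.FO.Calc

/-!
# Order of flat outputs: smooth functions of finitely many jet coordinates, and their calculus
-/

namespace FlatOrder

open scoped Topology ContDiff
open Filter

variable {n m : ℕ}

/-- `g` is, near `p`, a smooth function of `(x, u, ..., u^(N))`. -/
def SGood (N : ℕ) (g : Jet n m → ℝ) (p : Jet n m) : Prop :=
  ∃ φ : TJet n m N → ℝ, ∀ᶠ p' in 𝓝 p, ContDiffAt ℝ ∞ φ (trunc N p') ∧ g p' = φ (trunc N p')

theorem SGood.mono {N M : ℕ} (h : N ≤ M) {g : Jet n m → ℝ} {p : Jet n m} (hg : SGood N g p) :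
    SGood M g p := by
  obtain ⟨φ, hφ⟩ := hg
  refine ⟨fun q => φ (resL n m h q), ?_⟩
  filter_upwards [hφ] with p' h'
  refine ⟨?_, h'.2⟩
  exact ContDiffAt.fun_comp (g := φ) (f := fun q => resL n m h q) (trunc M p') h'.1
    (resL n m h).contDiff.contDiffAt

theorem SGood.congr {N : ℕ} {g g' : Jet n m → ℝ} {p : Jet n m} (hg : SGood N g p)
    (h : g' =ᶠ[𝓝 p] g) : SGood N g' p := by
  obtain ⟨φ, hφ⟩ := hg
  refine ⟨φ, ?_⟩
  filter_upwards [hφ, h] with p' h1 h2
  exact ⟨h1.1, h2.trans h1.2⟩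

theorem SGood.eventually {N : ℕ} {g : Jet n m → ℝ} {p : Jet n m} (hg : SGood N g p) :
    ∀ᶠ p' in 𝓝 p, SGood N g p' := by
  obtain ⟨φ, hφ⟩ := hg
  filter_upwards [hφ.eventually_nhds] with p' h2 using ⟨φ, h2⟩

theorem SGood.continuousAt {N : ℕ} {g : Jet n m → ℝ} {p : Jet n m} (hg : SGood N g p) :
    ContinuousAt g p := by
  obtain ⟨φ, hφ⟩ := hg
  have he : (fun p' => φ (trunc N p')) =ᶠ[𝓝 p] g := by
    filter_upwards [hφ] with p' h using h.2.symm
  refine ContinuousAt.congr ?_ he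
  exact ContinuousAt.comp hφ.self_of_nhds.1.continuousAt (continuous_trunc N).continuousAt

theorem sgood_const (N : ℕ) (a : ℝ) (p : Jet n m) : SGood N (fun _ => a) p :=
  ⟨fun _ => a, Eventually.of_forall fun _ => ⟨contDiffAt_const, rfl⟩⟩

theorem sgood_state (N : ℕ) (i : Fin n) (p : Jet n m) : SGood N (fun p => p.1 i) p := by
  refine ⟨fun q => q.1 i, Eventually.of_forall fun p' => ⟨?_, rfl⟩⟩
  have h : ContDiffAt ℝ ∞ (fun q : TJet n m N => q.1) (trunc N p') := contDiffAt_fst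
  exact contDiffAt_pi.1 h i

theorem sgood_input {N : ℕ} {j : ℕ} (h : j ≤ N) (b : Fin m) (p : Jet n m) :
    SGood N (fun p => p.2 j b) p := by
  refine ⟨fun q => q.2 ⟨j, by omega⟩ b, Eventually.of_forall fun p' => ⟨?_, rfl⟩⟩
  have h : ContDiffAt ℝ ∞ (fun q : TJet n m N => q.2) (trunc N p') := contDiffAt_snd
  exact contDiffAt_pi.1 (contDiffAt_pi.1 h ⟨j, by omega⟩) b

/-- Composition with a smooth function of finitely many good functions. -/
theorem SGood.comp {ι : Type*} [Fintype ι] {N : ℕ} {g : ι → Jet n m → ℝ} {p : Jet n m}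
    (hg : ∀ i, SGood N (g i) p) {Φ : (ι → ℝ) → ℝ}
    (hΦ : ∀ᶠ p' in 𝓝 p, ContDiffAt ℝ ∞ Φ (fun i => g i p')) :
    SGood N (fun p' => Φ (fun i => g i p')) p := by
  choose φ hφ using hg
  refine ⟨fun q => Φ (fun i => φ i q), ?_⟩
  have h1 : ∀ᶠ p' in 𝓝 p, ∀ i, ContDiffAt ℝ ∞ (φ i) (trunc N p') ∧ g i p' = φ i (trunc N p') :=
    eventually_all.2 hφ
  filter_upwards [h1, hΦ] with p' h2 h3
  have h4 : (fun i => g i p') = fun i => φ i (trunc N p') := funext fun i => (h2 i).2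
  refine ⟨?_, by rw [h4]⟩
  rw [h4] at h3
  exact ContDiffAt.fun_comp (g := Φ) (f := fun q i => φ i q) (trunc N p') h3
    (contDiffAt_pi.2 fun i => (h2 i).1)

theorem SGood.add {N : ℕ} {g g' : Jet n m → ℝ} {p : Jet n m} (hg : SGood N g p)
    (hg' : SGood N g' p) : SGood N (fun q => g q + g' q) p := by
  obtain ⟨φ, hφ⟩ := hg
  obtain ⟨φ', hφ'⟩ := hg'
  refine ⟨fun q => φ q + φ' q, ?_⟩
  filter_upwards [hφ, hφ'] with p' h1 h2
  exact ⟨h1.1.add h2.1, by rw [h1.2, h2.2]⟩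

theorem SGood.mul {N : ℕ} {g g' : Jet n m → ℝ} {p : Jet n m} (hg : SGood N g p)
    (hg' : SGood N g' p) : SGood N (fun q => g q * g' q) p := by
  obtain ⟨φ, hφ⟩ := hg
  obtain ⟨φ', hφ'⟩ := hg'
  refine ⟨fun q => φ q * φ' q, ?_⟩
  filter_upwards [hφ, hφ'] with p' h1 h2
  exact ⟨h1.1.mul h2.1, by rw [h1.2, h2.2]⟩

theorem SGood.neg {N : ℕ} {g : Jet n m → ℝ} {p : Jet n m} (hg : SGood N g p) :
    SGood N (fun q => - g q) p := by
  obtain ⟨φ, hφ⟩ := hg
  refine ⟨fun q => - φ q, ?_⟩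
  filter_upwards [hφ] with p' h1
  exact ⟨h1.1.neg, by rw [h1.2]⟩

theorem SGood.sub {N : ℕ} {g g' : Jet n m → ℝ} {p : Jet n m} (hg : SGood N g p)
    (hg' : SGood N g' p) : SGood N (fun q => g q - g' q) p := by
  simpa [sub_eq_add_neg] using hg.add hg'.neg

theorem SGood.inv {N : ℕ} {g : Jet n m → ℝ} {p : Jet n m} (hg : SGood N g p) (h0 : g p ≠ 0) :
    SGood N (fun q => (g q)⁻¹) p := by
  have hc := hg.continuousAt.eventually_ne h0
  obtain ⟨φ, hφ⟩ := hg
  refine ⟨fun q => (φ q)⁻¹, ?_⟩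
  filter_upwards [hφ, hc] with p' h1 h2
  refine ⟨h1.1.inv ?_, by rw [h1.2]⟩
  rw [← h1.2]; exact h2

theorem SGood.exists_repr {N : ℕ} {g : Jet n m → ℝ} {p : Jet n m} (hg : SGood N g p) :
    ∃ φ : TJet n m N → ℝ, ∀ᶠ p' in 𝓝 p, ContDiffAt ℝ ∞ φ (trunc N p') ∧
      g =ᶠ[𝓝 p'] fun q => φ (trunc N q) := by
  obtain ⟨φ, hφ⟩ := hg
  refine ⟨φ, ?_⟩
  filter_upwards [hφ.eventually_nhds] with p' h
  exact ⟨h.self_of_nhds.1, h.mono fun q hq => hq.2⟩

theorem shasLineDerivAt_of_repr {N : ℕ} {g : Jet n m → ℝ} {p : Jet n m} {φ : TJet n m N → ℝ}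
    (hφ : ContDiffAt ℝ ∞ φ (trunc N p)) (he : g =ᶠ[𝓝 p] fun p' => φ (trunc N p')) (v : Jet n m) :
    HasLineDerivAt ℝ g (fderiv ℝ φ (trunc N p) (trunc N v)) p v :=
  hasLineDerivAt_congr he
    (hasLineDerivAt_trunc (hφ.differentiableAt (by simp)).hasFDerivAt v)

theorem SGood.lineDifferentiableAt {N : ℕ} {g : Jet n m → ℝ} {p : Jet n m} (hg : SGood N g p)
    (v : Jet n m) : LineDifferentiableAt ℝ g p v := by
  obtain ⟨φ, hφ⟩ := hg.exists_repr
  exact (shasLineDerivAt_of_repr hφ.self_of_nhds.1 hφ.self_of_nhds.2 v).lineDifferentiableAt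

theorem contDiffAt_fderiv {E : Type*} [NormedAddCommGroup E] [NormedSpace ℝ E] {φ : E → ℝ}
    {x : E} (hφ : ContDiffAt ℝ ∞ φ x) : ContDiffAt ℝ ∞ (fderiv ℝ φ) x :=
  hφ.fderiv_right (by exact le_rfl)

theorem SGood.lineDeriv_good {N : ℕ} {g : Jet n m → ℝ} {p : Jet n m} (hg : SGood N g p)
    (v : Jet n m) : SGood N (fun p' => lineDeriv ℝ g p' v) p := by
  obtain ⟨φ, hφ⟩ := hg.exists_repr
  refine ⟨fun q => fderiv ℝ φ q (trunc N v), ?_⟩
  filter_upwards [hφ] with p' h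
  exact ⟨(contDiffAt_fderiv h.1).clm_apply contDiffAt_const,
    (shasLineDerivAt_of_repr h.1 h.2 v).lineDeriv⟩

theorem SGood.totalDeriv_good {f : (Fin n → ℝ) → (Fin m → ℝ) → (Fin n → ℝ)}
    (hf : AnalyticOnNhd ℝ (fun z : (Fin n → ℝ) × (Fin m → ℝ) => f z.1 z.2) Set.univ)
    {N : ℕ} {g : Jet n m → ℝ} {p : Jet n m} (hg : SGood N g p) :
    SGood (N + 1) (totalDeriv f g) p := by
  obtain ⟨φ, hφ⟩ := hg.exists_repr
  refine ⟨fun q => fderiv ℝ φ (resL n m (Nat.le_succ N) q) (tprol f N q), ?_⟩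
  filter_upwards [hφ] with p' h
  refine ⟨?_, (shasLineDerivAt_of_repr h.1 h.2 _).lineDeriv⟩
  refine ContDiffAt.clm_apply ?_ (analyticAt_tprol hf N _).contDiffAt
  exact ContDiffAt.fun_comp (g := fun q => fderiv ℝ φ q)
    (f := fun q => resL n m (Nat.le_succ N) q) (trunc (N + 1) p')
    (contDiffAt_fderiv h.1) (resL n m (Nat.le_succ N)).contDiff.contDiffAt

theorem slineDeriv_add_good {N : ℕ} {g g' : Jet n m → ℝ} {p : Jet n m} (hg : SGood N g p)
    (hg' : SGood N g' p) (v : Jet n m) :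
    lineDeriv ℝ (fun q => g q + g' q) p v = lineDeriv ℝ g p v + lineDeriv ℝ g' p v := by
  have h1 := (hg.lineDifferentiableAt v).hasLineDerivAt
  have h2 := (hg'.lineDifferentiableAt v).hasLineDerivAt
  unfold HasLineDerivAt at h1 h2
  exact (HasDerivAt.add h1 h2).deriv

theorem slineDeriv_mul_good {N : ℕ} {g g' : Jet n m → ℝ} {p : Jet n m} (hg : SGood N g p)
    (hg' : SGood N g' p) (v : Jet n m) :
    lineDeriv ℝ (fun q => g q * g' q) p v = g p * lineDeriv ℝ g' p v + g' p * lineDeriv ℝ g p v := by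
  have h1 := (hg.lineDifferentiableAt v).hasLineDerivAt
  have h2 := (hg'.lineDifferentiableAt v).hasLineDerivAt
  unfold HasLineDerivAt at h1 h2
  have h3 := (HasDerivAt.mul h1 h2).deriv
  simp only [zero_smul, add_zero] at h3
  unfold lineDeriv at *
  rw [show (fun t : ℝ => g (p + t • v) * g' (p + t • v)) =
    (fun t : ℝ => g (p + t • v)) * (fun t : ℝ => g' (p + t • v)) from rfl, h3]
  ring

/-- Chain rule. -/
theorem slineDeriv_comp_good {ι : Type*} [Fintype ι] {N : ℕ} {g : ι → Jet n m → ℝ} {p : Jet n m}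
    (hg : ∀ i, SGood N (g i) p) {Φ : (ι → ℝ) → ℝ} (hΦ : DifferentiableAt ℝ Φ (fun i => g i p))
    (v : Jet n m) :
    lineDeriv ℝ (fun q => Φ (fun i => g i q)) p v =
      fderiv ℝ Φ (fun i => g i p) (fun i => lineDeriv ℝ (g i) p v) := by
  have h1 : HasDerivAt (fun t : ℝ => fun i => g i (p + t • v)) (fun i => lineDeriv ℝ (g i) p v) 0 :=
    hasDerivAt_pi.2 fun i => ((hg i).lineDifferentiableAt v).hasLineDerivAt
  have h2 : HasFDerivAt Φ (fderiv ℝ Φ (fun i => g i p)) (fun i => g i (p + (0 : ℝ) • v)) := by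
    simp only [zero_smul, add_zero]
    exact hΦ.hasFDerivAt
  exact (h2.comp_hasDerivAt (0 : ℝ) h1).deriv

/-- derivative of a derivative, in terms of a representing function -/
theorem shasLineDerivAt_lineDeriv {N : ℕ} {g : Jet n m → ℝ} {p : Jet n m} {φ : TJet n m N → ℝ}
    (hφ : ∀ᶠ p' in 𝓝 p, ContDiffAt ℝ ∞ φ (trunc N p') ∧ g =ᶠ[𝓝 p'] fun q => φ (trunc N q))
    (v w : Jet n m) :
    HasLineDerivAt ℝ (fun q => lineDeriv ℝ g q w)
      (fderiv ℝ (fderiv ℝ φ) (trunc N p) (trunc N v) (trunc N w)) p v := by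
  have h1 : (fun q => lineDeriv ℝ g q w) =ᶠ[𝓝 p] fun q => fderiv ℝ φ (trunc N q) (trunc N w) := by
    filter_upwards [hφ] with q hq
    exact (shasLineDerivAt_of_repr hq.1 hq.2 w).lineDeriv
  refine hasLineDerivAt_congr h1 ?_
  have h2 : HasFDerivAt (fderiv ℝ φ) (fderiv ℝ (fderiv ℝ φ) (trunc N p)) (trunc N p) :=
    ((contDiffAt_fderiv hφ.self_of_nhds.1).differentiableAt (by simp)).hasFDerivAt
  have h3 : HasFDerivAt (fun q => fderiv ℝ φ q (trunc N w))
      ((ContinuousLinearMap.apply ℝ ℝ (trunc N w)).comp (fderiv ℝ (fderiv ℝ φ) (trunc N p)))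
      (trunc N p) :=
    (ContinuousLinearMap.apply ℝ ℝ (trunc N w)).hasFDerivAt.comp (trunc N p) h2
  exact hasLineDerivAt_trunc h3 v

theorem ssnd_symm {N : ℕ} {φ : TJet n m N → ℝ} {x : TJet n m N} (hφ : ContDiffAt ℝ ∞ φ x)
    (v w : TJet n m N) : fderiv ℝ (fderiv ℝ φ) x v w = fderiv ℝ (fderiv ℝ φ) x w v :=
  ContDiffAt.isSymmSndFDerivAt (n := ∞) hφ (by
    rw [minSmoothness_of_isRCLikeNormedField]
    exact WithTop.coe_le_coe.2 (le_top : (2 : ℕ∞) ≤ ⊤)) v w

/-- Symmetry of second derivatives. -/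
theorem slineDeriv_comm_good {N : ℕ} {g : Jet n m → ℝ} {p : Jet n m} (hg : SGood N g p)
    (v w : Jet n m) :
    lineDeriv ℝ (fun q => lineDeriv ℝ g q w) p v = lineDeriv ℝ (fun q => lineDeriv ℝ g q v) p w := by
  obtain ⟨φ, hφ⟩ := hg.exists_repr
  rw [(shasLineDerivAt_lineDeriv hφ v w).lineDeriv, (shasLineDerivAt_lineDeriv hφ w v).lineDeriv,
    ssnd_symm hφ.self_of_nhds.1]

/-- Commutator of a constant direction and the total derivative. -/
theorem slineDeriv_totalDeriv {f : (Fin n → ℝ) → (Fin m → ℝ) → (Fin n → ℝ)}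
    (hf : AnalyticOnNhd ℝ (fun z : (Fin n → ℝ) × (Fin m → ℝ) => f z.1 z.2) Set.univ)
    {N : ℕ} {g : Jet n m → ℝ} {p : Jet n m} (hg : SGood N g p) (v : Jet n m) :
    lineDeriv ℝ (totalDeriv f g) p v =
      totalDeriv f (fun q => lineDeriv ℝ g q v) p + lineDeriv ℝ g p (dprolong f p v) := by
  obtain ⟨φ, hφ⟩ := hg.exists_repr
  have hφ0 := hφ.self_of_nhds.1
  have h1 : totalDeriv f (fun q => lineDeriv ℝ g q v) p =
      fderiv ℝ (fderiv ℝ φ) (trunc N p) (trunc N (prolong f p)) (trunc N v) :=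
    (shasLineDerivAt_lineDeriv hφ (prolong f p) v).lineDeriv
  have h2 : lineDeriv ℝ g p (dprolong f p v) =
      fderiv ℝ φ (trunc N p) (trunc N (dprolong f p v)) :=
    (shasLineDerivAt_of_repr hφ0 hφ.self_of_nhds.2 _).lineDeriv
  rw [h1, h2]
  have h3 : HasFDerivAt (fun q => fderiv ℝ φ (resL n m (Nat.le_succ N) q))
      ((fderiv ℝ (fderiv ℝ φ) (trunc N p)).comp (resL n m (Nat.le_succ N))) (trunc (N + 1) p) :=
    HasFDerivAt.comp (g := fderiv ℝ φ) (f := fun q => resL n m (Nat.le_succ N) q)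
      (trunc (N + 1) p) ((contDiffAt_fderiv hφ0).differentiableAt (by simp)).hasFDerivAt
      (resL n m (Nat.le_succ N)).hasFDerivAt
  have h4 := h3.clm_apply (hasFDerivAt_tprol hf N (trunc (N + 1) p))
  have h6 : totalDeriv f g =ᶠ[𝓝 p] fun q => fderiv ℝ φ (resL n m (Nat.le_succ N) (trunc (N + 1) q))
      (tprol f N (trunc (N + 1) q)) := by
    filter_upwards [hφ] with q hq
    exact (shasLineDerivAt_of_repr hq.1 hq.2 _).lineDeriv
  have h5 := hasLineDerivAt_congr h6 (hasLineDerivAt_trunc h4 v)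
  rw [h5.lineDeriv]
  have e1 : resL n m (Nat.le_succ N) (trunc (N + 1) v) = trunc N v := rfl
  have e2 : resL n m (Nat.le_succ N) (trunc (N + 1) p) = trunc N p := rfl
  have e3 : tprol f N (trunc (N + 1) p) = trunc N (prolong f p) := rfl
  have e4 : (((fderiv ℝ (fun z : (Fin n → ℝ) × (Fin m → ℝ) => f z.1 z.2)
      ((trunc (N + 1) p).1, (trunc (N + 1) p).2 0)).comp (zeroL n m N)).prod (shiftL n m N))
      (trunc (N + 1) v) = trunc N (dprolong f p v) := rfl
  simp only [add_apply, ContinuousLinearMap.comp_apply,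
    ContinuousLinearMap.flip_apply]
  rw [e1, e2, e3, ssnd_symm hφ0 (trunc N v) (trunc N (prolong f p)), add_comm]
  congr 1

theorem slineDeriv_eq_zero_of_trunc {N : ℕ} {g : Jet n m → ℝ} {p : Jet n m} (hg : SGood N g p)
    {v : Jet n m} (hv : trunc N v = 0) : lineDeriv ℝ g p v = 0 := by
  obtain ⟨φ, hφ⟩ := hg.exists_repr
  rw [(shasLineDerivAt_of_repr hφ.self_of_nhds.1 hφ.self_of_nhds.2 _).lineDeriv, hv, map_zero]

/-- Expansion of the line derivative in coordinates. -/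
theorem slineDeriv_eq_sum {N : ℕ} {g : Jet n m → ℝ} {p : Jet n m} (hg : SGood N g p)
    (v : Jet n m) : lineDeriv ℝ g p v = ∑ i, v.1 i * lineDeriv ℝ g p (es i) +
      ∑ j ∈ Finset.range (N + 1), ∑ b, v.2 j b * lineDeriv ℝ g p (eu j b) := by
  obtain ⟨φ, hφ⟩ := hg.exists_repr
  have h : ∀ w, lineDeriv ℝ g p w = fderiv ℝ φ (trunc N p) (trunc N w) := fun w =>
    (shasLineDerivAt_of_repr hφ.self_of_nhds.1 hφ.self_of_nhds.2 w).lineDeriv
  have hv : trunc N v = ∑ i, v.1 i • trunc N (es (m := m) i) +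
      ∑ j ∈ Finset.range (N + 1), ∑ b, v.2 j b • trunc N (eu (n := n) j b) := by
    refine Prod.ext ?_ ?_
    · simp only [Prod.fst_add, Prod.fst_sum, Prod.smul_fst]
      have e1 : ∀ (j : ℕ) (b : Fin m), (trunc N (eu (n := n) j b)).1 = 0 := fun _ _ => rfl
      have e2 : ∀ i : Fin n, (trunc N (es (m := m) i)).1 = Pi.single i 1 := fun _ => rfl
      simp only [e1, e2, smul_zero, Finset.sum_const_zero, add_zero]
      funext k
      simp [trunc, Finset.sum_apply, Pi.single_apply]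
    · simp only [Prod.snd_add, Prod.snd_sum, Prod.smul_snd]
      have e1 : ∀ i : Fin n, (trunc N (es (m := m) i)).2 = 0 := fun _ => rfl
      simp only [e1, smul_zero, Finset.sum_const_zero, zero_add]
      funext k b
      simp only [Finset.sum_apply, Pi.smul_apply, smul_eq_mul]
      have e2 : ∀ (j : ℕ) (b' : Fin m), (trunc N (eu (n := n) j b')).2 k b =
          if j = (k : ℕ) then (if b' = b then 1 else 0) else 0 := by
        intro j b'
        simp only [trunc, eu, Pi.single_apply]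
        by_cases hj : j = (k : ℕ)
        · rw [if_pos hj.symm, if_pos hj, Pi.single_apply]
          by_cases hb : b' = b
          · rw [if_pos hb.symm, if_pos hb]
          · rw [if_neg (fun h => hb h.symm), if_neg hb]
        · rw [if_neg (fun h => hj h.symm), if_neg hj]
          rfl
      simp only [e2]
      rw [Finset.sum_eq_single (k : ℕ)]
      · simp [trunc]
      · intro j _ hj
        simp [hj]
      · intro hk
        exact absurd (Finset.mem_range.2 k.2) hk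
  rw [h v, hv, map_add, map_sum, map_sum]
  congr 1
  · refine Finset.sum_congr rfl fun i _ => ?_
    rw [map_smul, smul_eq_mul, h]
  · refine Finset.sum_congr rfl fun j _ => ?_
    rw [map_sum]
    refine Finset.sum_congr rfl fun b _ => ?_
    rw [map_smul, smul_eq_mul, h]

end FlatOrder
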