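import Pool.Agent.Helper62.FO.Good

/-!
# Order of flat outputs: the sequence of transformed systems and functions of the output jets
-/

namespace FlatOrder

open scoped Topology
open Filter

/-- Four functions on the jets of a system with 4 states and 2 inputs. -/
structure Stage where
  z1 : Jet 4 2 → ℝ
  z2 : Jet 4 2 → ℝ
  k : Jet 4 2 → ℝ
  l : Jet 4 2 → ℝ

/-- The state coordinates. -/
def stage0 : Stage where
  z1 p := p.1 0
  z2 p := p.1 1
  k p := p.1 2
  l p := p.1 3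

/-- The transformed stage (parameter `a`, total derivative of the system `sys c`). -/
noncomputable def Stage.next (c a : ℝ) (S : Stage) : Stage where
  z1 p := (a * S.z1 p + (1 - a) * Real.log (totalDeriv (sys c) S.z2 p)) / (2 - a) -
    (2 * S.l p + a * S.k p * totalDeriv (sys c) S.z2 p -
      totalDeriv (sys c) (totalDeriv (sys c) S.z2) p / totalDeriv (sys c) S.z2 p) /
      ((2 - a) * totalDeriv (sys c) S.z2 p) * S.z2 p
  z2 p := (2 * S.l p + a * S.k p * totalDeriv (sys c) S.z2 p -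
      totalDeriv (sys c) (totalDeriv (sys c) S.z2) p / totalDeriv (sys c) S.z2 p) /
      ((2 - a) * totalDeriv (sys c) S.z2 p)
  k p := - S.z2 p
  l p := totalDeriv (sys c) (totalDeriv (sys c) S.z2) p / totalDeriv (sys c) S.z2 p - S.l p

/-- The sequence of stages of the system `sys c`. -/
noncomputable def stage (c : ℝ) : ℕ → Stage
  | 0 => stage0
  | j + 1 => (stage c j).next c (c - 2 * j)

/-- Unit jet in the direction of `u_b^(j)`. -/
def eu {n m : ℕ} (j : ℕ) (b : Fin m) : Jet n m := (0, Pi.single j (Pi.single b 1))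

/-- Unit jet in the direction of the state `x i`. -/
def es {n m : ℕ} (i : Fin n) : Jet n m := (Pi.single i 1, 0)

/-- Near `p`, the stage `S` solves the system with parameter `a`; `z2`, `k`, `l` have order `< t`
in `u_0`, and `D z2` has exact order `t`. -/
structure StageAt (c a : ℝ) (t : ℕ) (S : Stage) (p : Jet 4 2) : Prop where
  good : ∃ N, Good N S.z1 p ∧ Good N S.z2 p ∧ Good N S.k p ∧ Good N S.l p
  eq1 : totalDeriv (sys c) S.z1 =ᶠ[𝓝 p] fun q => S.l q + S.k q * totalDeriv (sys c) S.z2 q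
  eq2 : totalDeriv (sys c) S.l =ᶠ[𝓝 p] fun q => S.l q ^ 2 -
    a * totalDeriv (sys c) S.z2 q * totalDeriv (sys c) S.k q
  ord2 : ∀ᶠ q in 𝓝 p, ∀ j, t ≤ j → lineDeriv ℝ S.z2 q (eu j 0) = 0
  ordk : ∀ᶠ q in 𝓝 p, ∀ j, t ≤ j → lineDeriv ℝ S.k q (eu j 0) = 0
  ordl : ∀ᶠ q in 𝓝 p, ∀ j, t ≤ j → lineDeriv ℝ S.l q (eu j 0) = 0
  top : lineDeriv ℝ (totalDeriv (sys c) S.z2) p (eu t 0) ≠ 0

/-- Near `p`, `g` is an analytic function of `(y, y', ..., y^(s))`, `y = h`. -/
def Expr {n m : ℕ} (f : (Fin n → ℝ) → (Fin m → ℝ) → (Fin n → ℝ)) (h : Fin m → Jet n m → ℝ)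
    (s : ℕ) (g : Jet n m → ℝ) (p : Jet n m) : Prop :=
  ∃ Φ : (Fin (s + 1) → Fin m → ℝ) → ℝ, AnalyticAt ℝ Φ (outJet f h s p) ∧
    g =ᶠ[𝓝 p] fun p' => Φ (outJet f h s p')

end FlatOrder
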